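import Pool.Agent.Lib.MP_005409_ag.DG.Nzd

/-! ROW CHN. Upper bound for the iterated sums of the Hilbert function of `JJ (UU r)`.
PROOF. Induction on `m` for `r : Fin m → ..`: `(S^[m] (H one (JJ (UU r)))) t ≤ d^m * (t + M).choose M`, `M = n + 2 + (N + 1)`.
`m = 0`: `⊥ ≤ JJ (UU r)`, `H_anti` (`HBase`), `H_bot`, `card_expo_one` (`HZero`), `Fintype.card (Fin (n+2) ⊕ Fin (N+1)) = M`.
Step: `r' = Fin.init r` (or `fun i => r i.castSucc`), `U' = UU r'`, `U = UU r ≤ U'`; `J = JJ U'`, `J' = JJ U`, `E = lin (r (Fin.last m))`.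
`J ≤ J'` and `E ∈ J'` (`evK_lin`), so `J ⊔ span {E} ≤ J'`. There is `y ∈ U'` with `∑ y_l r_last,l ≠ 0`: otherwise the functional of `r_last`
vanishes on the common kernel of those of `r'`, so it is in their span (`mem_span_of_iInf_ker_le_ker`), against `hr`. So `nzd` gives the regularity,
`H_step` the inequality `H J' t + H J (t-d) ≤ H J t`, and `iter_step` (with `H_mono`, `H_anti`) `S^[i+1] (H J') ≤ d * S^[i] (H J)`.
`E ∈ W ℂ one d`: `E` is a sum of `X (inl l) * rename inr (r l)`, `r l` homogeneous of degree `d - 1`: use `mul_mem_W` and, if `d = 0`,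
`hr0`. See `BT/WBase.lean`, `BT/HBase.lean` for `W` (membership through `restrictSupport`), `BT/Bezout.lean` for the use of `H_step`. -/

open MvPolynomial Pool.MPf4a4e4.BT

namespace Pool.Agent.Lib.MP_005409_ag.DG

/-- the functional with the coefficients `v` -/
private noncomputable def chL {K : Type} [Field K] {k : ℕ} (v : Fin k → K) : (Fin k → K) →ₗ[K] K where
  toFun y := ∑ l, y l * v l
  map_add' x y := by
    simp only [Pi.add_apply, add_mul, Finset.sum_add_distrib]
  map_smul' c x := by
    simp only [Pi.smul_apply, smul_eq_mul, mul_assoc, RingHom.id_apply]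
    rw [← Finset.mul_sum]

/-- the coefficients of a functional -/
private noncomputable def chP {K : Type} [Field K] {k : ℕ} : ((Fin k → K) →ₗ[K] K) →ₗ[K] (Fin k → K) where
  toFun g l := g (Pi.single l 1)
  map_add' _ _ := rfl
  map_smul' _ _ := rfl

private theorem chP_L {K : Type} [Field K] {k : ℕ} (v : Fin k → K) : chP (chL v) = v := by
  funext l
  change ∑ l', (Pi.single l (1 : K) : Fin k → K) l' * v l' = v l
  rw [Finset.sum_eq_single l]
  · rw [Pi.single_eq_same, one_mul]
  · intro b _ hb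
    rw [Pi.single_eq_of_ne hb, zero_mul]
  · intro h
    exact absurd (Finset.mem_univ l) h

private theorem ch_exists {K : Type} [Field K] {k m : ℕ} (v : Fin (m + 1) → Fin k → K) (hv : LinearIndependent K v) :
    ∃ y : Fin k → K, (∀ i : Fin m, ∑ l, y l * v i.castSucc l = 0) ∧ ∑ l, y l * v (Fin.last m) l ≠ 0 := by
  by_contra hcon
  push Not at hcon
  have h1 : ⨅ i : Fin m, LinearMap.ker (chL (v i.castSucc)) ≤ LinearMap.ker (chL (v (Fin.last m))) := by
    intro y hy
    rw [Submodule.mem_iInf] at hy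
    exact hcon y fun i => hy i
  have h2 := mem_span_of_iInf_ker_le_ker h1
  have h3 := (linearIndependent_finSucc'.1 hv).2
  apply h3
  have h4 := Submodule.mem_map_of_mem (f := chP) h2
  rw [chP_L, Submodule.map_span, ← Set.range_comp] at h4
  have h5 : (⇑(chP (K := K) (k := k)) ∘ fun i : Fin m => chL (v i.castSucc)) = Fin.init v := by
    funext i
    exact chP_L _
  rw [h5] at h4
  exact h4

theorem upper {n N d : ℕ} (m : ℕ) (r : Fin m → Fin (n + 2) → PV N)
    (hW : ∀ i, (lin (r i) : YV n N) ∈ W ℂ one d)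
    (hr : LinearIndependent (KK N) fun (i : Fin m) (l : Fin (n + 2)) => io N (r i l)) (t : ℕ) :
    (S^[m] (H one (JJ (UU (n := n) r)))) t ≤ d ^ m * (t + (n + N + 3)).choose (n + N + 3) := by
  induction m generalizing t with
  | zero =>
    have h1 : H one (JJ (UU (n := n) r)) t ≤ H one (⊥ : Ideal (YV n N)) t :=
      H_anti one Pool.MPf4a4e4.BT.one_pos bot_le t
    rw [H_bot one Pool.MPf4a4e4.BT.one_pos t, card_expo_one] at h1
    have h2 : Fintype.card (Fin (n + 2) ⊕ Fin (N + 1)) = n + N + 3 := by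
      rw [Fintype.card_sum, Fintype.card_fin, Fintype.card_fin]
      omega
    rw [h2] at h1
    rw [pow_zero, one_mul]
    exact h1
  | succ m ih =>
    set r' : Fin m → Fin (n + 2) → PV N := fun i => r i.castSucc with hr'
    have hle : JJ (UU (n := n) r') ≤ JJ (UU (n := n) r) := by
      intro G hG
      rw [mem_JJ] at hG ⊢
      intro y hy
      refine hG y ?_
      rw [mem_UU] at hy ⊢
      exact fun i => hy i.castSucc
    have hE : (lin (r (Fin.last m)) : YV n N) ∈ JJ (UU (n := n) r) := by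
      rw [mem_JJ]
      intro y hy
      rw [evK_lin]
      exact hy (Fin.last m)
    obtain ⟨y, hy1, hy2⟩ := ch_exists (fun (i : Fin (m + 1)) (l : Fin (n + 2)) => io N (r i l)) hr
    have hreg : ∀ g : YV n N, lin (r (Fin.last m)) * g ∈ JJ (UU (n := n) r') → g ∈ JJ (UU (n := n) r') :=
      fun g hg => nzd (UU (n := n) r') (r (Fin.last m)) ⟨y, (mem_UU r' y).2 hy1, hy2⟩ g hg
    have hsup : JJ (UU (n := n) r') ⊔ Ideal.span {(lin (r (Fin.last m)) : YV n N)} ≤ JJ (UU (n := n) r) := by
      refine sup_le hle ?_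
      rw [Ideal.span_singleton_le_iff_mem]
      exact hE
    have h4 := iter_step (f := H one (JJ (UU (n := n) r'))) (f' := H one (JJ (UU (n := n) r)))
      (H_mono one Pool.MPf4a4e4.BT.one_pos _) d
      (fun t => H_anti one Pool.MPf4a4e4.BT.one_pos hle t)
      (fun t ht => H_step one Pool.MPf4a4e4.BT.one_pos _ _ (lin (r (Fin.last m))) d (hW (Fin.last m)) hreg hsup t ht) m t
    have hli : LinearIndependent (KK N) fun (i : Fin m) (l : Fin (n + 2)) => io N (r' i l) :=
      (linearIndependent_finSucc'.1 hr).1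
    have h5 := ih r' (fun i => hW i.castSucc) hli t
    calc (S^[m + 1] (H one (JJ (UU (n := n) r)))) t ≤ d * (S^[m] (H one (JJ (UU (n := n) r')))) t := h4
      _ ≤ d * (d ^ m * (t + (n + N + 3)).choose (n + N + 3)) := Nat.mul_le_mul_left _ h5
      _ = d ^ (m + 1) * (t + (n + N + 3)).choose (n + N + 3) := by ring

end Pool.Agent.Lib.MP_005409_ag.DG
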