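import Pool.Agent.Lib.MP_005409_ag.DG.Defs

/-! ROW CNT. Vandermonde: `∑_(a ≤ t) C(a+n, n) C(t-a+b, b) = C(t+n+b+1, n+b+1)`, and exponents supported in `B`.
PROOF of `vdm`. Induction on `b`: `S (a ↦ C(a+n,n)) = C(t+n+1,n+1)` (`S_choose`, `b = 0`); for `b + 1` write `C(t-a+b+1, b+1) = ∑_(s ≤ t-a) C(s+b, b)`
and exchange the sums (or `Nat.sum_range_choose_..`, `Finset.Nat.antidiagonal` and coefficients of `(1-X)^(-n-1) (1-X)^(-b-1)`), or a double induction
on `t` with Pascal. `cardB`: exponents `β` with support in `B` and `∑ β ≤ s` are the exponents in `|B|` variables: `card_expo_one` of `BT/HZero.lean`. -/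

open MvPolynomial Pool.MPf4a4e4.BT

namespace Pool.Agent.Lib.MP_005409_ag.DG

theorem vdm (n b t : ℕ) :
    ∑ a ∈ Finset.range (t + 1), (a + n).choose n * (t - a + b).choose b = (t + (n + b + 1)).choose (n + b + 1) := by
  induction b generalizing t with
  | zero =>
    have h := Nat.sum_range_add_choose t n
    rw [show t + (n + 0 + 1) = t + n + 1 by omega, show n + 0 + 1 = n + 1 by omega, ← h]
    refine Finset.sum_congr rfl fun a _ => ?_
    rw [Nat.choose_zero_right, mul_one]
  | succ b ih =>
    induction t with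
    | zero =>
      rw [Finset.sum_range_one, Nat.zero_sub, Nat.zero_add, Nat.zero_add, Nat.zero_add, Nat.choose_self, Nat.choose_self,
        Nat.choose_self]
    | succ t iht =>
      have h1 : ∀ a ∈ Finset.range (t + 1), (a + n).choose n * (t + 1 - a + (b + 1)).choose (b + 1) =
          (a + n).choose n * (t + 1 - a + b).choose b + (a + n).choose n * (t - a + (b + 1)).choose (b + 1) := by
        intro a ha
        have ha' : a ≤ t := Nat.lt_succ_iff.1 (Finset.mem_range.1 ha)
        rw [show t + 1 - a + (b + 1) = (t + 1 - a + b) + 1 by omega, Nat.choose_succ_succ,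
          show t + 1 - a + b = t - a + (b + 1) by omega, mul_add]
      rw [Finset.sum_range_succ, Finset.sum_congr rfl h1, Finset.sum_add_distrib, iht]
      have h2 := ih (t + 1)
      rw [Finset.sum_range_succ] at h2
      rw [Nat.sub_self, Nat.zero_add, Nat.choose_self, mul_one] at h2 ⊢
      have h3 : (t + 1 + (n + (b + 1) + 1)).choose (n + (b + 1) + 1) =
          (t + 1 + (n + b + 1)).choose (n + b + 1) + (t + (n + (b + 1) + 1)).choose (n + (b + 1) + 1) := by
        rw [show t + 1 + (n + (b + 1) + 1) = (t + (n + (b + 1) + 1)) + 1 by omega,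
          show n + (b + 1) + 1 = (n + b + 1) + 1 by omega, Nat.choose_succ_succ,
          show t + 1 + (n + b + 1) = t + (n + b + 1 + 1) by omega]
      rw [h3, ← h2]
      ring

/-- there is a finite set of `C(s + |B|, |B|)` exponents of degree at most `s` with support in `B` -/
theorem cardB {N : ℕ} (B : Finset (Fin (N + 1))) (s : ℕ) :
    ∃ T : Finset (Fin (N + 1) →₀ ℕ), T.card = (s + B.card).choose B.card ∧
      ∀ β ∈ T, β.support ⊆ B ∧ (monomial β (1 : ℂ)).totalDegree ≤ s := by
  classical
  refine ⟨(expo (one : (↥B) → ℕ) s).image (Finsupp.embDomain (Function.Embedding.subtype fun x => x ∈ B)), ?_,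
    fun β hβ => ?_⟩
  · rw [Finset.card_image_of_injective _ (Finsupp.embDomain_injective _), card_expo_one, Fintype.card_coe]
  · obtain ⟨α, hα, rfl⟩ := Finset.mem_image.1 hβ
    refine ⟨fun x hx => ?_, ?_⟩
    · rw [Finsupp.support_embDomain, Finset.mem_map] at hx
      obtain ⟨y, -, rfl⟩ := hx
      exact y.2
    · rw [mem_expo _ one_pos, wd_one] at hα
      rw [totalDegree_monomial _ one_ne_zero, Finsupp.sum_embDomain, Finsupp.sum_fintype _ _ (fun _ => rfl)]
      exact hα

end Pool.Agent.Lib.MP_005409_ag.DG
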