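import Pool.Agent.Lib.MP_f4a4e4_co.BT.Step
import Pool.Agent.Lib.MP_f4a4e4_co.BT.SumS
import Pool.Agent.Lib.MP_f4a4e4_co.BT.Lim
import Pool.Agent.Lib.MP_f4a4e4_co.BT.HZero

/-! # Degrees of rational parametrizations of smooth hypersurfaces: definitions

`F` is a form in `x_0, …, x_{n+1}`, `f_0, …, f_{n+1}` are forms of degree `d` in `v_0, …, v_N` with `F(f) = 0`, `K = ℂ(v)`. -/

open MvPolynomial

namespace Pool.Agent.Lib.MP_005409_ag.DG

/-- polynomials in `v_0, …, v_N` -/
abbrev PV (N : ℕ) := MvPolynomial (Fin (N + 1)) ℂ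

/-- polynomials in `x_0, …, x_{n+1}` -/
abbrev PX (n : ℕ) := MvPolynomial (Fin (n + 2)) ℂ

/-- the field of rational functions in `v_0, …, v_N` -/
abbrev KK (N : ℕ) := FractionRing (PV N)

/-- polynomials in `y_0, …, y_{n+1}` and `v_0, …, v_N` -/
abbrev YV (n N : ℕ) := MvPolynomial (Fin (n + 2) ⊕ Fin (N + 1)) ℂ

/-- the inclusion of the polynomial ring in its field of fractions -/
noncomputable abbrev io (N : ℕ) : PV N → KK N := algebraMap (PV N) (KK N)

/-- value of `G(y, v)` at `y ∈ K^{n+2}` -/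
noncomputable def evK {n N : ℕ} (y : Fin (n + 2) → KK N) : YV n N →ₐ[ℂ] KK N :=
  aeval (Sum.elim y fun j => io N (X j))

/-- the polynomials `G(y, v)` which vanish at all `y` in the subspace `U` of `K^{n+2}` -/
noncomputable def JJ {n N : ℕ} (U : Submodule (KK N) (Fin (n + 2) → KK N)) : Ideal (YV n N) where
  carrier := {G | ∀ y ∈ U, evK y G = 0}
  add_mem' := fun {a b} ha hb y hy => by rw [map_add, ha y hy, hb y hy, add_zero]
  zero_mem' := fun y _ => map_zero _
  smul_mem' := fun c x hx y hy => by rw [smul_eq_mul, map_mul, hx y hy, mul_zero]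

theorem mem_JJ {n N : ℕ} (U : Submodule (KK N) (Fin (n + 2) → KK N)) (G : YV n N) :
    G ∈ JJ U ↔ ∀ y ∈ U, evK y G = 0 := Iff.rfl

/-- the form `∑ r_l(v) y_l`, linear in `y` -/
noncomputable def lin {n N : ℕ} (r : Fin (n + 2) → PV N) : YV n N :=
  ∑ l, X (Sum.inl l) * rename Sum.inr (r l)

theorem evK_lin {n N : ℕ} (r : Fin (n + 2) → PV N) (y : Fin (n + 2) → KK N) :
    evK y (lin r) = ∑ l, y l * io N (r l) := by
  unfold lin evK
  rw [map_sum]
  refine Finset.sum_congr rfl fun l _ => ?_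
  rw [map_mul, aeval_X, Sum.elim_inl, aeval_rename]
  congr 1
  have : (Sum.elim y fun j => io N (X j)) ∘ Sum.inr = fun j => io N (X j) := rfl
  rw [this]
  have h : (aeval fun j => io N (X j) : PV N →ₐ[ℂ] KK N) = Algebra.algHom ℂ (PV N) (KK N) := by
    ext j
    rw [aeval_X]
    rfl
  rw [h]
  rfl

/-- the subspace of the `y` killed by the linear forms with coefficients `r i` -/
noncomputable def UU {n N : ℕ} {ι : Type} (r : ι → Fin (n + 2) → PV N) : Submodule (KK N) (Fin (n + 2) → KK N) where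
  carrier := {y | ∀ i, ∑ l, y l * io N (r i l) = 0}
  add_mem' := fun {a b} ha hb i => by
    simp only [Pi.add_apply, add_mul, Finset.sum_add_distrib]
    rw [ha i, hb i, add_zero]
  zero_mem' := fun i => by simp
  smul_mem' := fun c x hx i => by
    simp only [Pi.smul_apply, smul_eq_mul, mul_assoc]
    rw [← Finset.mul_sum, hx i, mul_zero]

theorem mem_UU {n N : ℕ} {ι : Type} (r : ι → Fin (n + 2) → PV N) (y : Fin (n + 2) → KK N) :
    y ∈ UU r ↔ ∀ i, ∑ l, y l * io N (r i l) = 0 := Iff.rfl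

end Pool.Agent.Lib.MP_005409_ag.DG
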