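import Pool.Agent.Lib.MP_005409_ag.DG.Defs

/-! ROW HFA. Dimension of the space of forms. PROOF. `homogeneousSubmodule` is spanned by the monomials of degree `k`
(`homogeneousSubmodule_eq_finsupp_supported`), so its `finrank` is the number of `α : Fin (n+2) →₀ ℕ` with sum `k`; `Sym.equivNatSumOfFintype` and
`Sym.card_sym_eq_choose` (see `BT/HZero.lean`, `expoEquiv`, `card_expo_one`): `(k + n + 1).choose (n + 1)`. -/

open MvPolynomial

namespace Pool.Agent.Lib.MP_005409_ag.DG

private theorem card_deg (n k : ℕ) :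
    Nat.card {d : Fin (n + 2) →₀ ℕ | d.degree = k} = (k + (n + 1)).choose (n + 1) := by
  classical
  have e : {d : Fin (n + 2) →₀ ℕ | d.degree = k} ≃ Sym (Fin (n + 2)) k := by
    refine Equiv.trans ?_ (Sym.equivNatSumOfFintype (Fin (n + 2)) k).symm
    refine Finsupp.equivFunOnFinite.subtypeEquiv ?_
    intro d
    show d.degree = k ↔ _
    rw [Finsupp.degree_eq_sum]
    rfl
  rw [Nat.card_congr e, Nat.card_eq_fintype_card, Sym.card_sym_eq_choose, Fintype.card_fin]
  rw [show n + 2 + k - 1 = k + (n + 1) by omega]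
  exact Nat.choose_symm_add

theorem finrank_forms (n k : ℕ) :
    Module.Finite ℂ (homogeneousSubmodule (Fin (n + 2)) ℂ k) ∧
      Module.finrank ℂ (homogeneousSubmodule (Fin (n + 2)) ℂ k) = (k + (n + 1)).choose (n + 1) := by
  have h : homogeneousSubmodule (Fin (n + 2)) ℂ k = restrictSupport ℂ {d : Fin (n + 2) →₀ ℕ | d.degree = k} :=
    homogeneousSubmodule_eq_finsupp_supported _ _ _
  refine ⟨Module.Finite.iff_fg.2 (homogeneousSubmodule_fg _ _ k), ?_⟩
  rw [h, Module.finrank_eq_nat_card_basis (basisRestrictSupport ℂ {d : Fin (n + 2) →₀ ℕ | d.degree = k})]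
  exact card_deg n k

end Pool.Agent.Lib.MP_005409_ag.DG
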