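import Pool.Agent.Lib.MP_005409_ag.DG.Hfa

/-! ROW HFB. Many forms of degree `k` which are independent modulo `F`.
PROOF. `V = homogeneousSubmodule .. k`, `V' = homogeneousSubmodule .. (k - δ)` (`k ≥ δ`), `W = ` image of `V'` in `V` under multiplication with `F`
(injective): `finrank W = (k - δ + n + 1).choose (n + 1)`. A complement of `W` in `V` (`Submodule.exists_isCompl`) has dimension
`(k+n+1).choose (n+1) - (k-δ+n+1).choose (n+1)`; a basis `Q_i` of it works: if `F ∣ ∑ lam_i Q_i =: Q`, `Q = F * A`; `Q` is homogeneous of degree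
`k`, so (if `Q ≠ 0`; domain) `A` is homogeneous of degree `k - δ` (or replace `A` by its component of degree `k - δ`), `Q ∈ W ∩` complement, so
`Q = 0` and `lam = 0`. Numbers: by Pascal `(k+n+1).choose (n+1) - (k-δ+n+1).choose (n+1) = ∑_(i<δ) (k-i+n).choose n ≥ δ * (k-δ+1+n).choose n`. -/

open MvPolynomial

namespace Pool.Agent.Lib.MP_005409_ag.DG

private theorem num (n a δ : ℕ) :
    δ * (a + 1 + n).choose n + (a + (n + 1)).choose (n + 1) ≤ (a + δ + (n + 1)).choose (n + 1) := by
  induction δ with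
  | zero => simp
  | succ δ ih =>
    have h1 : (a + (δ + 1) + (n + 1)).choose (n + 1)
        = (a + δ + (n + 1)).choose n + (a + δ + (n + 1)).choose (n + 1) := by
      rw [show a + (δ + 1) + (n + 1) = (a + δ + (n + 1)) + 1 by ring]
      exact Nat.choose_succ_succ _ _
    have h2 : (a + 1 + n).choose n ≤ (a + δ + (n + 1)).choose n :=
      Nat.choose_le_choose n (by omega)
    rw [h1]
    calc (δ + 1) * (a + 1 + n).choose n + (a + (n + 1)).choose (n + 1)
        = (a + 1 + n).choose n + (δ * (a + 1 + n).choose n + (a + (n + 1)).choose (n + 1)) := by ring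
      _ ≤ _ := add_le_add h2 ih

private theorem comp_mul {n δ : ℕ} (F : PX n) (hF : F.IsHomogeneous δ) (A : PX n) (k : ℕ) (hk : δ ≤ k) :
    homogeneousComponent k (F * A) = F * homogeneousComponent (k - δ) A := by
  conv_lhs => rw [← sum_homogeneousComponent A]
  rw [Finset.mul_sum, map_sum]
  have h1 : ∀ j, homogeneousComponent k (F * homogeneousComponent j A)
      = if j = k - δ then F * homogeneousComponent (k - δ) A else 0 := by
    intro j
    have h2 : F * homogeneousComponent j A ∈ homogeneousSubmodule (Fin (n + 2)) ℂ (δ + j) :=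
      (mem_homogeneousSubmodule _ _).2 (hF.mul (homogeneousComponent_isHomogeneous j A))
    rw [homogeneousComponent_of_mem h2]
    by_cases hj : j = k - δ
    · subst hj
      rw [if_pos rfl, if_pos (by omega)]
    · rw [if_neg hj, if_neg (by omega)]
  rw [Finset.sum_congr rfl fun j _ => h1 j, Finset.sum_ite_eq']
  by_cases h3 : k - δ ∈ Finset.range (A.totalDegree + 1)
  · rw [if_pos h3]
  · rw [if_neg h3, homogeneousComponent_eq_zero, mul_zero]
    rw [Finset.mem_range] at h3
    omega

private theorem absf {V V' : Type} [AddCommGroup V] [Module ℂ V] [AddCommGroup V'] [Module ℂ V']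
    [Module.Finite ℂ V] (μ : V' →ₗ[ℂ] V) (hμ : Function.Injective μ) (m : ℕ)
    (h : m + Module.finrank ℂ V' ≤ Module.finrank ℂ V) :
    ∃ Q : Fin m → V, ∀ lam : Fin m → ℂ, (∑ i, lam i • Q i) ∈ LinearMap.range μ → lam = 0 := by
  classical
  obtain ⟨Wc, hWc⟩ := Submodule.exists_isCompl (LinearMap.range μ)
  have hle : m ≤ Module.finrank ℂ Wc := by
    have h1 := Submodule.finrank_add_eq_of_isCompl hWc
    rw [LinearMap.finrank_range_of_inj hμ] at h1
    omega
  let b := Module.finBasis ℂ Wc
  refine ⟨fun i => ((b (Fin.castLE hle i) : Wc) : V), fun lam hr => ?_⟩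
  set s : Wc := ∑ i, lam i • b (Fin.castLE hle i) with hs
  have hsv : (s : V) = ∑ i, lam i • ((b (Fin.castLE hle i) : Wc) : V) := by
    rw [hs]
    simp
  have h4 : (s : V) = 0 := (Submodule.disjoint_def.1 hWc.disjoint) (s : V) (by rw [hsv]; exact hr) s.2
  have h5 : s = 0 := Subtype.ext h4
  have hli : LinearIndependent ℂ fun i => b (Fin.castLE hle i) :=
    b.linearIndependent.comp _ (Fin.castLE_injective hle)
  funext i
  exact (Fintype.linearIndependent_iff.1 hli) lam (by rw [← hs]; exact h5) i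

theorem forms_mod {n δ : ℕ} (F : PX n) (hF : F.IsHomogeneous δ) (hF0 : F ≠ 0) (k : ℕ) (hk : δ ≤ k) :
    ∃ Q : Fin (δ * (k - δ + 1 + n).choose n) → PX n, (∀ i, (Q i).IsHomogeneous k) ∧
      ∀ lam : Fin (δ * (k - δ + 1 + n).choose n) → ℂ, F ∣ ∑ i, lam i • Q i → lam = 0 := by
  have hfin : Module.Finite ℂ (homogeneousSubmodule (Fin (n + 2)) ℂ k) := (finrank_forms n k).1
  have hmem : ∀ A : homogeneousSubmodule (Fin (n + 2)) ℂ (k - δ),
      F * (A : PX n) ∈ homogeneousSubmodule (Fin (n + 2)) ℂ k := by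
    intro A
    have h1 := hF.mul ((mem_homogeneousSubmodule _ _).1 A.2)
    rw [mem_homogeneousSubmodule]
    rwa [show δ + (k - δ) = k by omega] at h1
  let μ : homogeneousSubmodule (Fin (n + 2)) ℂ (k - δ) →ₗ[ℂ] homogeneousSubmodule (Fin (n + 2)) ℂ k :=
    { toFun := fun A => ⟨F * (A : PX n), hmem A⟩
      map_add' := fun A B => by
        apply Subtype.ext
        simp [mul_add]
      map_smul' := fun c A => by
        apply Subtype.ext
        simp }
  have hμ : Function.Injective μ := by
    intro A B h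
    have h1 : F * (A : PX n) = F * (B : PX n) := congrArg Subtype.val h
    exact Subtype.ext (mul_left_cancel₀ hF0 h1)
  have hle : δ * (k - δ + 1 + n).choose n
      + Module.finrank ℂ (homogeneousSubmodule (Fin (n + 2)) ℂ (k - δ))
      ≤ Module.finrank ℂ (homogeneousSubmodule (Fin (n + 2)) ℂ k) := by
    have h1 := num n (k - δ) δ
    rw [show k - δ + δ = k by omega] at h1
    rw [(finrank_forms n (k - δ)).2, (finrank_forms n k).2]
    exact h1
  obtain ⟨Q, hQ⟩ := absf μ hμ _ hle
  refine ⟨fun i => (Q i : PX n), fun i => (mem_homogeneousSubmodule _ _).1 (Q i).2, fun lam hdvd => ?_⟩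
  apply hQ lam
  obtain ⟨A, hA⟩ := hdvd
  set s : homogeneousSubmodule (Fin (n + 2)) ℂ k := ∑ i, lam i • Q i with hs
  have hsv : (s : PX n) = ∑ i, lam i • (Q i : PX n) := by
    rw [hs]
    simp
  refine ⟨⟨homogeneousComponent (k - δ) A,
    (mem_homogeneousSubmodule _ _).2 (homogeneousComponent_isHomogeneous _ _)⟩, ?_⟩
  apply Subtype.ext
  show F * homogeneousComponent (k - δ) A = (s : PX n)
  have h2 : homogeneousComponent k (s : PX n) = (s : PX n) := by
    rw [homogeneousComponent_of_mem s.2, if_pos rfl]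
  rw [← comp_mul F hF A k hk, ← h2, hsv, hA]

end Pool.Agent.Lib.MP_005409_ag.DG
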