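import Pool.Agent.Lib.MP_005409_ag.DG.Hfb

/-! ROW HFC. The numbers: `δ (δ-1)^n C(a+n, n)` forms of degree `(δ-1)(a+c)` independent modulo `F`, `c ≥ n + 1`.
PROOF. `k = (δ-1)(a+c) ≥ δ` (`δ ≥ 2`, `c ≥ n+1`; `n ≥ 1`. If `δ - 1 ≥ 1`, `a + c ≥ 2`: `(δ-1)·2 ≥ δ`). `k - δ + 1 = (δ-1)(a+c-1)`, and
`(δ-1)^n C(a+n,n) ≤ C((δ-1)(a+c-1)+n, n)`: `n! C(m+n,n) = ∏_(j<n) (m+1+j)` (`Nat.ascFactorial_eq_prod_range`,
`Nat.ascFactorial_eq_factorial_mul_choose`, see `BT/Lim.lean`), and `(δ-1)(a+1+j) ≤ (δ-1)(a+n) ≤ (δ-1)(a+c-1) ≤ (δ-1)(a+c-1)+1+j`, `j < n`.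
Then restrict the family of `forms_mod` to `Fin` of the smaller number (`Fin.castLE`, extend `lam` by `0`). -/

open MvPolynomial

namespace Pool.Agent.Lib.MP_005409_ag.DG

private theorem hfc_num {n e a m : ℕ} (hm : a + n ≤ m) :
    e ^ n * (a + n).choose n ≤ (e * m + n).choose n := by
  have h1 : n.factorial * (e ^ n * (a + n).choose n) ≤ n.factorial * (e * m + n).choose n := by
    have e1 : n.factorial * (e ^ n * (a + n).choose n) = ∏ j ∈ Finset.range n, (e * (a + 1 + j)) := by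
      rw [Finset.prod_mul_distrib, Finset.prod_const, Finset.card_range,
        ← Nat.ascFactorial_eq_prod_range, Nat.ascFactorial_eq_factorial_mul_choose]
      ring
    rw [e1, ← Nat.ascFactorial_eq_factorial_mul_choose, Nat.ascFactorial_eq_prod_range]
    refine Finset.prod_le_prod' fun j hj => ?_
    have hj' := Finset.mem_range.1 hj
    have h2 : e * (a + 1 + j) ≤ e * m := Nat.mul_le_mul_left e (by omega)
    omega
  exact Nat.le_of_mul_le_mul_left h1 (Nat.factorial_pos n)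

theorem forms {n δ : ℕ} (hn : 1 ≤ n) (hδ : 2 ≤ δ) (F : PX n) (hF : F.IsHomogeneous δ) (hF0 : F ≠ 0) (a c : ℕ) (hc : n + 1 ≤ c) :
    ∃ Q : Fin (δ * (δ - 1) ^ n * (a + n).choose n) → PX n, (∀ i, (Q i).IsHomogeneous ((δ - 1) * (a + c))) ∧
      ∀ lam : Fin (δ * (δ - 1) ^ n * (a + n).choose n) → ℂ, F ∣ ∑ i, lam i • Q i → lam = 0 := by
  have hac : 2 ≤ a + c := by omega
  have hk : δ ≤ (δ - 1) * (a + c) := by
    calc δ ≤ (δ - 1) * 2 := by omega
      _ ≤ (δ - 1) * (a + c) := Nat.mul_le_mul_left _ hac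
  have hke : (δ - 1) * (a + c) - δ + 1 = (δ - 1) * (a + c - 1) := by
    rw [Nat.mul_sub, mul_one]
    omega
  obtain ⟨Q, hQ, hQ0⟩ := forms_mod F hF hF0 ((δ - 1) * (a + c)) hk
  have hle : δ * (δ - 1) ^ n * (a + n).choose n ≤ δ * ((δ - 1) * (a + c) - δ + 1 + n).choose n := by
    rw [hke, mul_assoc]
    exact Nat.mul_le_mul_left _ (hfc_num (by omega))
  have hinj : Function.Injective (Fin.castLE hle) := Fin.castLE_injective hle
  refine ⟨fun i => Q (Fin.castLE hle i), fun i => hQ _, fun lam hlam => ?_⟩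
  have h1 : ∑ i, lam i • Q (Fin.castLE hle i) =
      ∑ j, (Function.extend (Fin.castLE hle) lam 0) j • Q j := by
    refine Fintype.sum_of_injective (Fin.castLE hle) hinj _ _ (fun j hj => ?_) fun i => ?_
    · rw [Function.extend_apply' _ _ _ (fun h => hj h), Pi.zero_apply, zero_smul]
    · rw [hinj.extend_apply]
  rw [h1] at hlam
  have h2 := hQ0 _ hlam
  funext i
  have h3 := congrFun h2 (Fin.castLE hle i)
  rw [hinj.extend_apply] at h3
  exact h3

end Pool.Agent.Lib.MP_005409_ag.DG
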