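import Pool.Agent.Lib.MP_005409_ag.DG.Defs

/-! ROW IND. `n + 1` of the `f_l` are algebraically independent.
PROOF. `F` is homogeneous of degree `δ ≥ 2 > 0` and not `0`, so `F` is not constant and there is a variable `x_i0` with `degreeOf i0 F > 0`
(`MvPolynomial.vars`, `degreeOf_pos_iff..`). Let `G` be a polynomial in the variables `x_l`, `l ≠ i0` with `G(f) = 0`. Then (`rename Subtype.val G`
is in `PX n` and) `F ∣ G` by `hdom`; if `G ≠ 0`, `G = F * A` and `degreeOf i0 G = degreeOf i0 F + degreeOf i0 A > 0` (`degreeOf_mul_eq`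
or `degreeOf_mul` for a domain), while `degreeOf i0 (rename Subtype.val G) = 0`. -/

open MvPolynomial

namespace Pool.Agent.Lib.MP_005409_ag.DG

theorem ind {n N δ : ℕ} (hδ : 0 < δ) (F : PX n) (hF : F.IsHomogeneous δ) (hF0 : F ≠ 0) (f : Fin (n + 2) → PV N)
    (hdom : ∀ G : PX n, aeval f G = 0 → F ∣ G) :
    ∃ i0 : Fin (n + 2), AlgebraicIndependent ℂ fun i : {i : Fin (n + 2) // i ≠ i0} => f i := by
  classical
  have hne : F.vars ≠ ∅ := by
    intro h
    rw [vars_eq_empty_iff_eq_C] at h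
    have h1 : IsHomogeneous (C (coeff 0 F) : PX n) 0 := isHomogeneous_C _ _
    rw [← h] at h1
    exact hδ.ne' (hF.inj_right h1 hF0)
  obtain ⟨i0, hi0⟩ := Finset.nonempty_iff_ne_empty.2 hne
  refine ⟨i0, ?_⟩
  rw [algebraicIndependent_iff]
  intro p hp
  by_contra hp0
  have hq : aeval f (rename (Subtype.val : {i : Fin (n + 2) // i ≠ i0} → Fin (n + 2)) p) = 0 := by
    rw [aeval_rename]
    exact hp
  obtain ⟨A, hA⟩ := hdom _ hq
  have hq0 : rename (Subtype.val : {i : Fin (n + 2) // i ≠ i0} → Fin (n + 2)) p ≠ 0 := by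
    intro h
    exact hp0 (rename_injective _ Subtype.val_injective (by rw [h, map_zero]))
  have hA0 : A ≠ 0 := by
    rintro rfl
    exact hq0 (by rw [hA, mul_zero])
  have h1 : degreeOf i0 (rename (Subtype.val : {i : Fin (n + 2) // i ≠ i0} → Fin (n + 2)) p) = degreeOf i0 F + degreeOf i0 A := by
    rw [hA]
    exact degreeOf_mul_eq hF0 hA0
  have h2 : degreeOf i0 (rename (Subtype.val : {i : Fin (n + 2) // i ≠ i0} → Fin (n + 2)) p) = 0 := by
    rw [degreeOf_def, Multiset.count_eq_zero]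
    intro h
    have h3 : i0 ∈ (rename (Subtype.val : {i : Fin (n + 2) // i ≠ i0} → Fin (n + 2)) p).vars := by
      rw [vars_def, Multiset.mem_toFinset]
      exact h
    have h4 := vars_rename (Subtype.val : {i : Fin (n + 2) // i ≠ i0} → Fin (n + 2)) p h3
    rw [Finset.mem_image] at h4
    obtain ⟨j, -, hj⟩ := h4
    exact j.2 hj
  have h3 : 0 < degreeOf i0 F := by
    rw [degreeOf_def, Multiset.count_pos]
    rw [vars_def, Multiset.mem_toFinset] at hi0
    exact hi0
  omega

end Pool.Agent.Lib.MP_005409_ag.DG
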