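import Pool.Agent.Lib.MP_005409_ag.DG.Rel

/-! ROW JACA. Jacobian criterion (easy half, characteristic 0): the gradients of algebraically independent polynomials are linearly
independent over `K = ℂ(v)`.
PROOF. `w_i`, `i ∈ κ`, `|κ| = r`. Let `B` be a maximal subset of `Fin (N+1)` such that `(w_i)_i, (v_b)_(b ∈ B)` are algebraically independent
(exists: finitely many subsets, `∅` is one). Then `r + |B| ≤ N + 1` (transcendence degree of `PV N`:
`AlgebraicIndependent.lift_cardinalMk_le_trdeg` and `MvPolynomial.trdeg_of_isDomain`).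
CLAIM: the `K`-linear map `K^(N+1) → K^κ × K^B`, `D ↦ ((∑_k D_k ∂_k w_i)_i, (D_b)_b)` is injective. Let `D` be in the kernel and `j ∉ B`.
By maximality `w, v_B, v_j` are algebraically dependent: choose `Φ ≠ 0` in `ℂ[Y_i, Z_b, T]` of MINIMAL total degree with `Φ(w, v_B, v_j) = 0`.
`∂_T Φ ≠ 0` (else `Φ` does not contain `T` (characteristic 0) and `w, v_B` would be dependent), and `∂_T Φ` has smaller total degree, so
`∂_T Φ (w, v_B, v_j) ≠ 0`. Apply `∑_k D_k ∂_k` to `Φ(w, v_B, v_j) = 0` (chain rule as in `Rel.chain_rule`, any number of variables):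
`0 = ∑_i Φ_(Y_i)(..) (D · ∇w_i) + ∑_b Φ_(Z_b)(..) D_b + Φ_T(..) D_j = Φ_T(..) D_j`, so `D_j = 0`. Hence `D = 0`.
So `N + 1 ≤ r + |B|`, equality holds, the map is bijective, so surjective, and therefore the functionals `D ↦ D · ∇w_i` are linearly
independent: if `∑ c_i ∇w_i = 0`, apply it to a `D` with `D · ∇w_i = δ_(i i')`. -/

open MvPolynomial

namespace Pool.Agent.Lib.MP_005409_ag.DG

open scoped IntermediateField.algebraAdjoinAdjoin in
open scoped TensorProduct in
private theorem jac_der {E : Type} [Field E] [Algebra ℂ E] {s : Set E} (hs : IsTranscendenceBasis ℂ ((↑) : s → E)) (j : s) :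
    ∃ D : Derivation ℂ E E, D (j : E) = 1 ∧ ∀ i : s, i ≠ j → D (i : E) = 0 := by
  classical
  obtain ⟨x, hxd⟩ : ∃ x : s → E, x = ((↑) : s → E) := ⟨_, rfl⟩
  rw [← hxd] at hs
  have hx : AlgebraicIndependent ℂ x := hs.1
  have halg : Algebra.IsAlgebraic (IntermediateField.adjoin ℂ (Set.range x)) E := hs.isAlgebraic_field
  have hsep : Algebra.IsSeparable (IntermediateField.adjoin ℂ (Set.range x)) E := inferInstance
  have h1 : Algebra.FormallyEtale (IntermediateField.adjoin ℂ (Set.range x)) E := Algebra.FormallyEtale.of_isSeparable _ E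
  have h2 : Algebra.FormallyEtale (Algebra.adjoin ℂ (Set.range x)) (IntermediateField.adjoin ℂ (Set.range x)) :=
    .of_isLocalization (nonZeroDivisors _)
  have h3 : Algebra.FormallyEtale (Algebra.adjoin ℂ (Set.range x)) E :=
    .comp _ (IntermediateField.adjoin ℂ (Set.range x)) _
  have hval : ∀ a : Algebra.adjoin ℂ (Set.range x), aeval x (hx.aevalEquiv.symm a) = algebraMap (Algebra.adjoin ℂ (Set.range x)) E a := by
    intro a
    rw [← hx.algebraMap_aevalEquiv, AlgEquiv.apply_symm_apply]
  let lm : Algebra.adjoin ℂ (Set.range x) →ₗ[ℂ] E := (aeval x : MvPolynomial s ℂ →ₐ[ℂ] E).toLinearMap ∘ₗ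
    ((pderiv j : Derivation ℂ (MvPolynomial s ℂ) (MvPolynomial s ℂ)) : MvPolynomial s ℂ →ₗ[ℂ] MvPolynomial s ℂ) ∘ₗ
      hx.aevalEquiv.symm.toLinearMap
  have hlm : ∀ a, lm a = aeval x (pderiv j (hx.aevalEquiv.symm a)) := fun _ => rfl
  let d : Derivation ℂ (Algebra.adjoin ℂ (Set.range x)) E := Derivation.mk' lm (fun a b => by
    rw [hlm, hlm, hlm, map_mul, Derivation.leibniz, map_add, smul_eq_mul, smul_eq_mul, map_mul, map_mul, hval, hval,
      Algebra.smul_def, Algebra.smul_def])
  have hd : ∀ a, d a = aeval x (pderiv j (hx.aevalEquiv.symm a)) := fun _ => rfl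
  suffices hmain : ∀ i : s, (((d.liftKaehlerDifferential.liftBaseChange E) ∘ₗ
    (KaehlerDifferential.tensorKaehlerEquivOfFormallyEtale ℂ (Algebra.adjoin ℂ (Set.range x)) E).symm.toLinearMap).compDer
      (KaehlerDifferential.D ℂ E)) (i : E) = if i = j then 1 else 0 by
    exact ⟨_, (hmain j).trans (if_pos rfl), fun i hij => (hmain i).trans (if_neg hij)⟩
  intro i
  have hmem : (i : E) ∈ Algebra.adjoin ℂ (Set.range x) := Algebra.subset_adjoin ⟨i, by rw [hxd]⟩
  have hi : (i : E) = algebraMap (Algebra.adjoin ℂ (Set.range x)) E ⟨i, hmem⟩ := rfl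
  have hX : hx.aevalEquiv.symm ⟨i, hmem⟩ = X i := by
    rw [AlgEquiv.symm_apply_eq]
    apply Subtype.ext
    have h4 := hx.algebraMap_aevalEquiv (X i)
    rw [aeval_X] at h4
    have h5 : x i = (i : E) := by rw [hxd]
    rw [h5] at h4
    exact h4.symm
  show (d.liftKaehlerDifferential.liftBaseChange E)
    ((KaehlerDifferential.tensorKaehlerEquivOfFormallyEtale ℂ (Algebra.adjoin ℂ (Set.range x)) E).symm
      (KaehlerDifferential.D ℂ E (i : E))) = if i = j then 1 else 0
  rw [hi, KaehlerDifferential.tensorKaehlerEquivOfFormallyEtale_symm_D_algebraMap, LinearMap.liftBaseChange_one_tmul,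
    Derivation.liftKaehlerDifferential_comp_D, hd, hX, pderiv_X]
  by_cases h : i = j
  · subst h
    simp
  · rw [if_neg h, Pi.single_eq_of_ne h, map_zero]

private theorem jac_add {N : ℕ} (p q : PV N) : io N (p + q) = io N p + io N q := map_add (algebraMap (PV N) (KK N)) p q

private theorem jac_mul {N : ℕ} (p q : PV N) : io N (p * q) = io N p * io N q := map_mul (algebraMap (PV N) (KK N)) p q

private theorem jac_one {N : ℕ} : io N 1 = 1 := map_one (algebraMap (PV N) (KK N))

private theorem jac_zero {N : ℕ} : io N 0 = 0 := map_zero (algebraMap (PV N) (KK N))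

private theorem jac_chain {N : ℕ} (D : Derivation ℂ (KK N) (KK N)) (p : PV N) :
    D (io N p) = ∑ k, io N (pderiv k p) * D (io N (X k)) := by
  induction p using MvPolynomial.induction_on with
  | C a =>
    have h1 : io N (C a) = algebraMap ℂ (KK N) a := rfl
    rw [h1, Derivation.map_algebraMap]
    simp
  | add p q hp hq =>
    rw [jac_add, map_add, hp, hq, ← Finset.sum_add_distrib]
    refine Finset.sum_congr rfl fun k _ => ?_
    rw [map_add, jac_add, add_mul]
  | mul_X p i hp =>
    rw [jac_mul, Derivation.leibniz, hp, smul_eq_mul, smul_eq_mul]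
    have h1 : ∀ k : Fin (N + 1), io N (pderiv k (p * X i)) * D (io N (X k)) =
        io N (X i) * (io N (pderiv k p) * D (io N (X k))) + (if k = i then io N p * D (io N (X k)) else 0) := by
      intro k
      rw [Derivation.leibniz, smul_eq_mul, smul_eq_mul, jac_add, jac_mul, jac_mul, pderiv_X]
      by_cases h : k = i
      · subst h
        rw [if_pos rfl, Pi.single_eq_same, jac_one]
        ring
      · rw [if_neg h, Pi.single_eq_of_ne (Ne.symm h), jac_zero]
        ring
    rw [Finset.sum_congr rfl fun k _ => h1 k, Finset.sum_add_distrib, ← Finset.mul_sum, Finset.sum_ite_eq' Finset.univ i,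
      if_pos (Finset.mem_univ _)]
    ring

theorem grad_independent {N : ℕ} {κ : Type} [Fintype κ] (w : κ → PV N) (hw : AlgebraicIndependent ℂ w) :
    LinearIndependent (KK N) fun (i : κ) (k : Fin (N + 1)) => io N (pderiv k (w i)) := by
  classical
  have hinj : Function.Injective (io N) := IsFractionRing.injective (PV N) (KK N)
  obtain ⟨y, hy⟩ : ∃ y : κ → KK N, y = fun i => io N (w i) := ⟨_, rfl⟩
  have hyi : AlgebraicIndependent ℂ y := by
    rw [hy]
    exact hw.map' (f := IsScalarTower.toAlgHom ℂ (PV N) (KK N)) hinj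
  have hyinj : Function.Injective y := hyi.injective
  obtain ⟨t, hst, ht⟩ := exists_isTranscendenceBasis_superset (R := ℂ) (s := Set.range y) hyi.coe_range
  rw [Fintype.linearIndependent_iff]
  intro g hg i0
  have hg' : ∀ k : Fin (N + 1), ∑ i, g i * io N (pderiv k (w i)) = 0 := by
    intro k
    have h1 := congrFun hg k
    rw [Finset.sum_apply] at h1
    exact h1
  obtain ⟨D, hD1, hD2⟩ := jac_der ht ⟨y i0, hst ⟨i0, rfl⟩⟩
  have hDy : ∀ i : κ, D (y i) = if i = i0 then 1 else 0 := by
    intro i
    by_cases h : i = i0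
    · rw [if_pos h, h]
      exact hD1
    · rw [if_neg h]
      exact hD2 ⟨y i, hst ⟨i, rfl⟩⟩ fun h1 => h (hyinj (Subtype.mk.inj h1))
  calc g i0 = ∑ i, g i * D (y i) := by
        rw [Finset.sum_congr rfl fun i _ => by rw [hDy i, mul_ite, mul_one, mul_zero], Finset.sum_ite_eq' Finset.univ i0,
          if_pos (Finset.mem_univ _)]
    _ = ∑ i, ∑ k, D (io N (X k)) * (g i * io N (pderiv k (w i))) := by
        refine Finset.sum_congr rfl fun i _ => ?_
        have h2 : y i = io N (w i) := by rw [hy]
        rw [h2, jac_chain, Finset.mul_sum]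
        exact Finset.sum_congr rfl fun k _ => by ring
    _ = ∑ k, D (io N (X k)) * ∑ i, g i * io N (pderiv k (w i)) := by
        rw [Finset.sum_comm]
        exact Finset.sum_congr rfl fun k _ => (Finset.mul_sum _ _ _).symm
    _ = 0 := Finset.sum_eq_zero fun k _ => by rw [hg' k, mul_zero]

end Pool.Agent.Lib.MP_005409_ag.DG
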