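import Pool.Agent.Lib.MP_005409_ag.DG.Defs

/-! ROW JACB. Row rank = column rank. If `n + 1` rows of the matrix `M_(l,k)` (`l ∈ Fin (n+2)`, `k ∈ Fin (N+1)`) over a field, those with index
`≠ i0`, are linearly independent, then `n + 1` columns are linearly independent.
PROOF. `Matrix.rank`: the rank of the submatrix of these rows is `n + 1` (`LinearIndependent.rank_matrix`), so the rank of `M` is at least `n + 1`
(`Matrix.rank_submatrix_le` or columns span), the columns span a space of dimension `≥ n + 1`, and a spanning set contains a linearly independent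
family of `n + 1` of its members (`exists_linearIndependent`, `exists_fun_fin_finrank_span_eq`; restrict to the first `n + 1`). -/

namespace Pool.Agent.Lib.MP_005409_ag.DG

theorem columns {K : Type} [Field K] {n N : ℕ} (M : Fin (n + 2) → Fin (N + 1) → K) (i0 : Fin (n + 2))
    (h : LinearIndependent K fun i : {i : Fin (n + 2) // i ≠ i0} => M i) :
    ∃ j : Fin (n + 1) → Fin (N + 1), Function.Injective j ∧ LinearIndependent K fun (i : Fin (n + 1)) (l : Fin (n + 2)) => M l (j i) := by
  classical
  set M' : Matrix (Fin (n + 2)) (Fin (N + 1)) K := M with hM'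
  set A : Matrix {i : Fin (n + 2) // i ≠ i0} (Fin (N + 1)) K := fun i => M i with hA
  have hcard : Fintype.card {i : Fin (n + 2) // i ≠ i0} = n + 1 := by
    rw [Fintype.card_subtype_compl, Fintype.card_fin, Fintype.card_subtype_eq]
    rfl
  have h1 : A.rank = n + 1 := by
    have h0 : LinearIndependent K A.row := h
    rw [h0.rank_matrix, hcard]
  have h2 : A.rank ≤ M'.rank := by
    have h3 : A = (Matrix.of fun (i : {i : Fin (n + 2) // i ≠ i0}) (l : Fin (n + 2)) =>
        if l = i then (1 : K) else 0) * M' := by
      ext i k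
      simp [Matrix.mul_apply, hA, hM']
    rw [h3]
    exact Matrix.rank_mul_le_right _ _
  rw [h1, Matrix.rank_eq_finrank_span_cols] at h2
  obtain ⟨f, hf1, -, hf3⟩ := Submodule.exists_fun_fin_finrank_span_eq K (Set.range M'.col)
  choose j0 hj0 using hf1
  have h4 : LinearIndependent K fun i : Fin (n + 1) => f (Fin.castLE h2 i) :=
    hf3.comp _ (Fin.castLE_injective h2)
  have h5 : (fun i : Fin (n + 1) => f (Fin.castLE h2 i)) =
      fun (i : Fin (n + 1)) (l : Fin (n + 2)) => M l (j0 (Fin.castLE h2 i)) := by
    funext i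
    rw [← hj0]
    rfl
  rw [h5] at h4
  refine ⟨fun i => j0 (Fin.castLE h2 i), fun a b hab => ?_, h4⟩
  refine h4.injective ?_
  funext l
  show M l (j0 (Fin.castLE h2 a)) = M l (j0 (Fin.castLE h2 b))
  have : j0 (Fin.castLE h2 a) = j0 (Fin.castLE h2 b) := hab
  rw [this]

end Pool.Agent.Lib.MP_005409_ag.DG
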