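import Pool.Agent.Lib.MP_005409_ag.DG.Nst

/-! ROW LFT. Lifts: every `Q(f(v))`, `Q` a form of degree `(δ-1)(a+c)`, is the value at `y = c' ∇F(f(v))` of a polynomial `G(y,v)` of total degree
`≤ a + e`, up to the factor `c'^a`.
PROOF. `nul` gives `e0`; let `c = max (n+1) e0` (so `(δ-1) c ≥ e0` as `δ ≥ 2`), `e = (δ-1) c d`. Induction on `a`.
`a = 0`: `G = rename Sum.inr (aeval f Q)`: its total degree is at most that of `aeval f Q`, which is homogeneous of degree `(δ-1) c d`
(`IsHomogeneous.aeval` / `IsHomogeneous.eval₂`), and `evK y G = io N (aeval f Q)` for all `y` (proof as in `evK_lin`).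
`a + 1`: `(δ-1)(a+1+c) = (δ-1)(a+c) + (δ-1)`, so `Q = ∑ F_i A_i`, `A_i` homogeneous of degree `(δ-1)(a+c)`; let `G_i` be the polynomial of `A_i`
(`choose`), `G = ∑ X (inl i) * G_i`: total degree `≤ 1 + (a + e)`; value at `y = c' g`, `g_i = io (F_i(f))`:
`∑ c' g_i c'^a io (A_i(f)) = c'^(a+1) io (∑ F_i(f) A_i(f)) = c'^(a+1) io (Q(f))`. -/

open MvPolynomial

namespace Pool.Agent.Lib.MP_005409_ag.DG

private theorem evK_inr {n N : ℕ} (y : Fin (n + 2) → KK N) (p : PV N) :
    evK y (rename Sum.inr p : YV n N) = io N p := by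
  unfold evK
  rw [aeval_rename]
  have : (Sum.elim y fun j => io N (X j)) ∘ Sum.inr = fun j => io N (X j) := rfl
  rw [this]
  have h : (aeval fun j => io N (X j) : PV N →ₐ[ℂ] KK N) = Algebra.algHom ℂ (PV N) (KK N) := by
    ext j
    rw [aeval_X]
    rfl
  rw [h]
  rfl

theorem lift {n N δ d : ℕ} (hδ : 2 ≤ δ) (F : PX n) (hF : F.IsHomogeneous δ)
    (hs : ∀ x : Fin (n + 2) → ℂ, (∀ i, eval x (pderiv i F) = 0) → x = 0)
    (f : Fin (n + 2) → PV N) (hf : ∀ l, (f l).IsHomogeneous d) :
    ∃ c e : ℕ, n + 1 ≤ c ∧ ∀ (a : ℕ) (Q : PX n), Q.IsHomogeneous ((δ - 1) * (a + c)) →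
      ∃ G : YV n N, G.totalDegree ≤ a + e ∧
        ∀ c' : KK N, evK (fun l => c' * io N (aeval f (pderiv l F))) G = c' ^ a * io N (aeval f Q) := by
  obtain ⟨e0, he⟩ := nul F hF hs
  refine ⟨max (n + 1) e0, (δ - 1) * max (n + 1) e0 * d, le_max_left _ _, ?_⟩
  have hc : e0 ≤ max (n + 1) e0 := le_max_right _ _
  generalize max (n + 1) e0 = c at hc
  intro a
  induction a with
  | zero =>
    intro Q hQ
    refine ⟨rename Sum.inr (aeval f Q), ?_, fun c' => ?_⟩
    · refine (totalDegree_rename_le _ _).trans ?_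
      have h1 := (hQ.aeval f hf).totalDegree_le
      refine h1.trans (le_of_eq ?_)
      ring
    · rw [evK_inr, pow_zero, one_mul]
  | succ a ih =>
    intro Q hQ
    have e1 : (δ - 1) * (a + 1 + c) = (δ - 1) * (a + c) + (δ - 1) := by ring
    rw [e1] at hQ
    have hge : e0 ≤ (δ - 1) * (a + c) := by
      have h1 : 1 * (a + c) ≤ (δ - 1) * (a + c) := Nat.mul_le_mul_right _ (by omega)
      omega
    obtain ⟨A, hA, hQA⟩ := he _ hge Q hQ
    choose G hG hG' using fun i => ih (A i) (hA i)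
    refine ⟨∑ i, X (Sum.inl i) * G i, ?_, fun c' => ?_⟩
    · refine totalDegree_finsetSum_le fun i _ => ?_
      refine (totalDegree_mul _ _).trans ?_
      have h2 : (X (Sum.inl i) : YV n N).totalDegree = 1 := totalDegree_X _
      have h3 := hG i
      rw [h2]
      omega
    · have h5 : io N (aeval f Q) = ∑ i, io N (aeval f (pderiv i F * A i)) := by
        rw [hQA, map_sum]
        exact map_sum (algebraMap (PV N) (KK N)) _ _
      rw [map_sum, h5, Finset.mul_sum]
      refine Finset.sum_congr rfl fun i _ => ?_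
      have h6 : io N (aeval f (pderiv i F * A i)) = io N (aeval f (pderiv i F)) * io N (aeval f (A i)) := by
        rw [map_mul]
        exact map_mul (algebraMap (PV N) (KK N)) _ _
      rw [map_mul, hG' i c', h6]
      have h4 : evK (fun l => c' * io N (aeval f (pderiv l F))) (X (Sum.inl i) : YV n N) =
          c' * io N (aeval f (pderiv i F)) := by
        unfold evK
        rw [aeval_X, Sum.elim_inl]
      rw [h4, pow_succ]
      ring

end Pool.Agent.Lib.MP_005409_ag.DG
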