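import Pool.Agent.Lib.MP_005409_ag.DG.Defs
import Pool.Agent.Lib.MP_f4a4e4_co.BT.WBase

/-! ROW LIW. The total degree of `∑ y_l ∂_j f_l(v)` is at most `d`.
PROOF. `∂_j f_l` is homogeneous of degree `d - 1` (`IsHomogeneous.pderiv`), and `0` if `d = 0` (then `f_l` is a constant). A monomial of
`X (inl l) * rename inr q`, `q` homogeneous of degree `d - 1`, has degree `1 + (d - 1) = d` if `d ≥ 1`. `W ℂ one t` = polynomials all of
whose exponents `α` satisfy `wd one α = ∑ α i ≤ t` (`restrictSupport`; `mem_W`-lemmas in `BT/WBase.lean`, `wd_one` in `BT/HZero.lean`);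
`mem_W_of_totalDegree` below: `p ∈ W ℂ one t ↔ p.totalDegree ≤ t`, so `totalDegree_finsetSum_le`, `totalDegree_mul`, `totalDegree_rename_le`. -/

open MvPolynomial Pool.MPf4a4e4.BT

namespace Pool.Agent.Lib.MP_005409_ag.DG

theorem mem_W_iff {σ : Type} [Fintype σ] (p : MvPolynomial σ ℂ) (t : ℕ) : p ∈ W ℂ one t ↔ p.totalDegree ≤ t := by
  rw [mem_W, totalDegree, Finset.sup_le_iff]
  refine forall₂_congr fun α _ => ?_
  rw [wd_one, Finsupp.sum_fintype]
  exact fun _ => rfl

theorem lin_mem_W {n N d : ℕ} (f : Fin (n + 2) → PV N) (hf : ∀ l, (f l).IsHomogeneous d) (j : Fin (N + 1)) :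
    (lin (fun l => pderiv j (f l)) : YV n N) ∈ W ℂ one d := by
  unfold lin
  refine Submodule.sum_mem _ fun l _ => ?_
  rw [mem_W_iff]
  beta_reduce
  cases d with
  | zero =>
    have h1 : (f l).totalDegree = 0 := Nat.le_zero.1 (hf l).totalDegree_le
    rw [totalDegree_eq_zero_iff_eq_C.1 h1, pderiv_C, map_zero, mul_zero, totalDegree_zero]
  | succ d =>
    have h1 : (pderiv j (f l)).totalDegree ≤ d := ((hf l).pderiv (i := j)).totalDegree_le
    refine (totalDegree_mul _ _).trans ?_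
    have h2 : (X (Sum.inl l) : YV n N).totalDegree = 1 := totalDegree_X _
    have h3 := totalDegree_rename_le (Sum.inr : Fin (N + 1) → Fin (n + 2) ⊕ Fin (N + 1)) (pderiv j (f l))
    rw [h2]
    omega

end Pool.Agent.Lib.MP_005409_ag.DG
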