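import Pool.Agent.Lib.MP_005409_ag.DG.Cnt
import Pool.Agent.Lib.MP_f4a4e4_co.BT.HBase

/-! ROW LOW. Lower bound for the Hilbert function.
PROOF. For `a ≤ t`, `i : Fin (A * C(a+n,n))` let `G_(a,i)` be the lift of `Q_(a,i)`. The polynomials `v^β G_(a,i)`, `β` supported in `B`,
`|β| + a ≤ t`, have total degree `≤ t + e`, their number is `∑_(a ≤ t) A C(a+n,n) C(t-a+|B|, |B|) = A C(t+n+|B|+1, n+|B|+1) = A C(t+N+2, N+2)`
(`vdm` of row CNT, used in Main; exponents: `cardB` of row CNT). They are linearly independent modulo `J`: let `∑ lam_(a,i,β) v^β G_(a,i) ∈ J` (`rename inr (monomial β 1)` for `v^β`).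
Value at `y = c' g`: `∑_a c'^a ∑_(i,β) lam v^β Q_(a,i)(f) = 0` in `K` for all `c' ∈ K`; `K` is infinite, so every coefficient of this polynomial in `c'`
is `0`: for each `a`, `∑_β v^β R_β(f) = 0` in `PV N`, `R_β = ∑_i lam_(a,i,β) Q_(a,i)` homogeneous of degree `m a`. By `hB` all `R_β(f) = 0`, so `F ∣ R_β`
(`hdom`), so `lam = 0`. Hence `H one J (t + e) ≥` their number: the classes are in `im J (W (t+e))`, `LinearIndependent.fintype_card_le_finrank`
(`H = finrank (im J (W ..))`, `im_finite`, `W_finite` in `BT/HBase.lean`). -/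

open MvPolynomial Pool.MPf4a4e4.BT

namespace Pool.Agent.Lib.MP_005409_ag.DG

private theorem low_evK_inr {n N : ℕ} (y : Fin (n + 2) → KK N) (p : PV N) :
    evK (n := n) y (rename Sum.inr p) = io N p := by
  unfold evK
  rw [aeval_rename]
  have h1 : (Sum.elim y fun j => io N (X j)) ∘ Sum.inr = fun j => io N (X j) := rfl
  rw [h1]
  have h : (aeval fun j => io N (X j) : PV N →ₐ[ℂ] KK N) = Algebra.algHom ℂ (PV N) (KK N) := by
    ext j
    rw [aeval_X]
    rfl
  rw [h]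
  rfl

private theorem low_io_sum {N : ℕ} {κ : Type*} (s : Finset κ) (F : κ → PV N) :
    io N (∑ i ∈ s, F i) = ∑ i ∈ s, io N (F i) := map_sum (algebraMap (PV N) (KK N)) F s

private theorem low_io_mul {N : ℕ} (p q : PV N) : io N (p * q) = io N p * io N q :=
  map_mul (algebraMap (PV N) (KK N)) p q

private theorem low_io_smul {N : ℕ} (z : ℂ) (p : PV N) : io N (z • p) = z • io N p :=
  map_smul (Algebra.algHom ℂ (PV N) (KK N)) z p

private theorem low_mem_W {n N : ℕ} (p : YV n N) (s : ℕ) (h : p.totalDegree ≤ s) :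
    p ∈ W ℂ (one : Fin (n + 2) ⊕ Fin (N + 1) → ℕ) s := by
  rw [mem_W]
  intro α hα
  rw [wd_one]
  refine le_trans ?_ h
  have h1 := le_totalDegree hα
  rwa [Finsupp.sum_fintype _ _ (fun _ => rfl)] at h1

private theorem low_poly {N : ℕ} (t : ℕ) (C : Fin (t + 1) → KK N)
    (h : ∀ c' : KK N, ∑ a : Fin (t + 1), c' ^ (a : ℕ) * C a = 0) : ∀ a, C a = 0 := by
  classical
  have hP : (∑ a : Fin (t + 1), Polynomial.monomial (a : ℕ) (C a) : Polynomial (KK N)) = 0 := by
    have : Infinite (KK N) := Infinite.of_injective (algebraMap ℂ (KK N)) (algebraMap ℂ (KK N)).injective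
    refine Polynomial.funext fun c' => ?_
    rw [Polynomial.eval_finsetSum, Polynomial.eval_zero, ← h c']
    refine Finset.sum_congr rfl fun a _ => ?_
    rw [Polynomial.eval_monomial, mul_comm]
  intro a
  have h1 := congrArg (fun P => Polynomial.coeff P (a : ℕ)) hP
  simp only [Polynomial.finsetSum_coeff, Polynomial.coeff_zero, Polynomial.coeff_monomial] at h1
  rw [Finset.sum_eq_single a] at h1
  · simpa using h1
  · intro b _ hb
    rw [if_neg]
    intro hab
    exact hb (Fin.ext hab)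
  · intro h2
    exact absurd (Finset.mem_univ a) h2

theorem lower {n N A e : ℕ} (F : PX n) (f : Fin (n + 2) → PV N) (hdom : ∀ G : PX n, aeval f G = 0 → F ∣ G)
    (g : Fin (n + 2) → KK N) (J : Ideal (YV n N)) (hJ : ∀ G ∈ J, ∀ c' : KK N, evK (fun l => c' * g l) G = 0)
    (B : Finset (Fin (N + 1)))
    (hB : ∀ (m : ℕ) (T : Finset (Fin (N + 1) →₀ ℕ)), (∀ β ∈ T, β.support ⊆ B) →
        ∀ R : (Fin (N + 1) →₀ ℕ) → PX n, (∀ β ∈ T, (R β).IsHomogeneous m) →
          ∑ β ∈ T, monomial β (1 : ℂ) * aeval f (R β) = 0 → ∀ β ∈ T, aeval f (R β) = 0)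
    (m : ℕ → ℕ) (Q : ∀ a : ℕ, Fin (A * (a + n).choose n) → PX n) (hQ : ∀ a i, (Q a i).IsHomogeneous (m a))
    (hQF : ∀ a, ∀ lam : Fin (A * (a + n).choose n) → ℂ, F ∣ ∑ i, lam i • Q a i → lam = 0)
    (G : ∀ a : ℕ, Fin (A * (a + n).choose n) → YV n N) (hG : ∀ a i, (G a i).totalDegree ≤ a + e)
    (hGe : ∀ a i, ∀ c' : KK N, evK (fun l => c' * g l) (G a i) = c' ^ a * io N (aeval f (Q a i))) (t : ℕ) :
    ∑ a ∈ Finset.range (t + 1), A * (a + n).choose n * (t - a + B.card).choose B.card ≤ H one J (t + e) := by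
  classical
  choose T hTc hT using fun a : ℕ => cardB B (t - a)
  let ι := Σ a : Fin (t + 1), Fin (A * ((a : ℕ) + n).choose n) × {β // β ∈ T (a : ℕ)}
  let v : ι → YV n N := fun x => rename Sum.inr (monomial (x.2.2 : Fin (N + 1) →₀ ℕ) (1 : ℂ)) * G x.1 x.2.1
  have hcard : Fintype.card ι =
      ∑ a ∈ Finset.range (t + 1), A * (a + n).choose n * (t - a + B.card).choose B.card := by
    rw [Fintype.card_sigma, Finset.sum_range]
    refine Finset.sum_congr rfl fun a _ => ?_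
    rw [Fintype.card_prod, Fintype.card_fin, Fintype.card_coe, hTc]
  rw [← hcard]
  have := W_finite (F := ℂ) (one : Fin (n + 2) ⊕ Fin (N + 1) → ℕ) one_pos (t + e)
  refine card_le_finrank_im J (W ℂ one (t + e)) v ?_ ?_
  · intro x
    refine low_mem_W _ _ ?_
    have h1 := (hT (x.1 : ℕ) x.2.2 x.2.2.2).2
    have h2 := hG x.1 x.2.1
    have h3 : (rename Sum.inr (monomial (x.2.2 : Fin (N + 1) →₀ ℕ) (1 : ℂ)) : YV n N).totalDegree ≤ t - x.1 :=
      (totalDegree_rename_le _ _).trans h1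
    have h4 : (x.1 : ℕ) ≤ t := Nat.lt_succ_iff.1 x.1.2
    have h5 := totalDegree_mul (rename Sum.inr (monomial (x.2.2 : Fin (N + 1) →₀ ℕ) (1 : ℂ)) : YV n N) (G x.1 x.2.1)
    change (rename Sum.inr (monomial (x.2.2 : Fin (N + 1) →₀ ℕ) (1 : ℂ)) * G x.1 x.2.1 : YV n N).totalDegree ≤ t + e
    omega
  · rw [Fintype.linearIndependent_iff]
    intro lam hlam
    have hmem : ∑ x, lam x • v x ∈ J := by
      rw [← Ideal.Quotient.eq_zero_iff_mem]
      have h1 : Ideal.Quotient.mk J (∑ x, lam x • v x) = Ideal.Quotient.mkₐ ℂ J (∑ x, lam x • v x) := rfl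
      rw [h1, map_sum, ← hlam]
      refine Finset.sum_congr rfl fun x _ => ?_
      rw [map_smul]
    have hev : ∀ c' : KK N, ∑ a : Fin (t + 1), c' ^ (a : ℕ) *
        io N (∑ y : Fin (A * ((a : ℕ) + n).choose n) × {β // β ∈ T (a : ℕ)},
          lam ⟨a, y⟩ • (monomial (y.2 : Fin (N + 1) →₀ ℕ) (1 : ℂ) * aeval f (Q a y.1))) = 0 := by
      intro c'
      have h1 := hJ _ hmem c'
      rw [map_sum, Fintype.sum_sigma] at h1
      rw [← h1]
      refine Finset.sum_congr rfl fun a _ => ?_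
      rw [low_io_sum, Finset.mul_sum]
      refine Finset.sum_congr rfl fun y _ => ?_
      rw [low_io_smul, low_io_mul, map_smul]
      change _ = lam ⟨a, y⟩ • evK (fun l => c' * g l)
        (rename Sum.inr (monomial (y.2 : Fin (N + 1) →₀ ℕ) (1 : ℂ)) * G a y.1)
      rw [map_mul, low_evK_inr, hGe, mul_smul_comm]
      congr 1
      ring
    have hC := low_poly (N := N) t _ hev
    rintro ⟨a, i, β⟩
    have h1 := hC a
    replace h1 := (map_eq_zero_iff _ (IsFractionRing.injective (PV N) (KK N))).1 h1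
    -- the forms R β
    let R : (Fin (N + 1) →₀ ℕ) → PX n := fun γ =>
      if h : γ ∈ T (a : ℕ) then ∑ i, lam ⟨a, i, ⟨γ, h⟩⟩ • Q a i else 0
    have hR : ∀ γ (h : γ ∈ T (a : ℕ)), R γ = ∑ i, lam ⟨a, i, ⟨γ, h⟩⟩ • Q a i := fun γ h => dif_pos h
    have h2 : ∑ γ ∈ T (a : ℕ), monomial γ (1 : ℂ) * aeval f (R γ) = 0 := by
      rw [← h1, Fintype.sum_prod_type_right, ← Finset.sum_coe_sort (T (a : ℕ))]
      refine Finset.sum_congr rfl fun γ _ => ?_
      rw [hR γ γ.2, map_sum, Finset.mul_sum]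
      refine Finset.sum_congr rfl fun j _ => ?_
      rw [map_smul, mul_smul_comm]
    have h3 := hB (m a) (T (a : ℕ)) (fun γ hγ => (hT (a : ℕ) γ hγ).1) R (fun γ hγ => by
      rw [hR γ hγ]
      refine IsHomogeneous.sum _ _ _ fun j _ => ?_
      rw [smul_eq_C_mul]
      simpa using (isHomogeneous_C _ (lam ⟨a, j, ⟨γ, hγ⟩⟩)).mul (hQ a j)) h2 β β.2
    have h4 := hdom _ h3
    rw [hR β β.2] at h4
    exact congrFun (hQF a _ h4) i

end Pool.Agent.Lib.MP_005409_ag.DG
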