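import Pool.Agent.Lib.MP_005409_ag.DG.Defs

/-! ROW TRB. `N + 1 - n` of the variables `v_b` are independent over the rational functions of degree `0` in `f`.
PROOF. `f_p ≠ 0` for some `p` (`hfp`). In `K = KK N` let `z_l = f_l / f_p` (so `z_p = 1`). The `z_l`, `l ≠ p`, are algebraically dependent over `ℂ`:
`F(z) = F(f)/f_p^δ = 0` (`F` homogeneous), i.e. `F` with `x_p = 1` (a polynomial in the `n+1` variables `x_l`, `l ≠ p`) vanishes at `(z_l)`; it is not `0`
because `F` is homogeneous and not `0` (exponents of `F` of total degree `δ` are determined by their restriction to `l ≠ p`).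
Let `I ⊆ {l ≠ p}` be maximal with `(z_l)_(l ∈ I)` algebraically independent: `|I| ≤ n`. Let `B ⊆ Fin (N+1)` be maximal with `(z_l)_(l ∈ I), (v_b)_(b ∈ B)`
algebraically independent over `ℂ`: a transcendence basis of `K` (all `v_j` are algebraic over it), so `|I| + |B| = N + 1` (`trdeg` of `K`),
`|B| + n ≥ N + 1`; shrink `B` to have `|B| + n = N + 1` (`n ≤ N + 1`).
(Mathlib: `exists_isTranscendenceBasis_between`, `MvPolynomial.trdeg_of_isDomain`, `Algebra.trdeg_..fractionRing`.)
Let `∑_β v^β R_β(f) = 0`, all `R_β` forms of degree `m`. Divide by `f_p^m`: `∑_β v^β R_β(z) = 0`. The `R_β(z)` lie in the field `L = ℂ(z_l : l ≠ p)`,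
which is algebraic over `ℂ(z_l : l ∈ I)`, and `(v_b)_(b ∈ B)` is independent over `ℂ(z_l : l ∈ I)`, so also over `L`
(`AlgebraicIndependent` and algebraic extensions: `extendScalars`), so all `R_β(z) = 0` and `R_β(f) = f_p^m R_β(z) = 0`. -/

open MvPolynomial

namespace Pool.Agent.Lib.MP_005409_ag.DG

private theorem tr_inj (N : ℕ) : Function.Injective (io N) := IsFractionRing.injective _ _

private theorem tr_v (N : ℕ) : IsTranscendenceBasis ℂ (fun j : Fin (N + 1) => io N (X j)) := by
  have h := IsTranscendenceBasis.mvPolynomial (Fin (N + 1)) ℂ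
  have : Algebra.IsAlgebraic (PV N) (KK N) := IsLocalization.isAlgebraic (KK N) (nonZeroDivisors (PV N))
  exact h.algebraMap_comp (A := KK N)

/-- values of a form at a multiple -/
private theorem tr_scale {n N m : ℕ} (f : Fin (n + 2) → PV N) (c : KK N) (G : PX n) (hG : G.IsHomogeneous m) :
    aeval (fun l => io N (f l) / c) G = io N (aeval f G) / c ^ m := by
  have h1 : aeval f G = ∑ d ∈ G.support, C (coeff d G) * d.prod fun i e => f i ^ e := by
    rw [aeval_def, eval₂_eq']
    refine Finset.sum_congr rfl fun d _ => ?_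
    rw [Finsupp.prod_fintype _ _ (fun i => pow_zero _)]
    rfl
  have h2 : io N (∑ d ∈ G.support, C (coeff d G) * d.prod fun i e => f i ^ e) = ∑ d ∈ G.support, io N (C (coeff d G) * d.prod fun i e => f i ^ e) := map_sum (algebraMap (PV N) (KK N)) _ _
  rw [h1, h2, aeval_def, eval₂_eq', Finset.sum_div]
  refine Finset.sum_congr rfl fun d hd => ?_
  have hdm : ∑ i, d i = m := by
    have := hG (mem_support_iff.1 hd)
    rw [Finsupp.weight_apply, Finsupp.sum_fintype _ _ (fun i => by simp)] at this
    simpa using this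
  have h3 : io N (C (coeff d G) * d.prod fun i e => f i ^ e) = io N (C (coeff d G)) * ∏ i, io N (f i) ^ d i := by
    rw [Finsupp.prod_fintype _ _ (fun i => pow_zero _)]
    simp only [io, map_mul, map_prod, map_pow]
  rw [h3]
  simp only [div_pow]
  rw [Finset.prod_div_distrib, Finset.prod_pow_eq_pow_sum, hdm, mul_div_assoc]
  rfl


/-- the subring generated by the quotients has transcendence degree at most `n` -/
private theorem tr_deg {n N δ : ℕ} (F : PX n) (hF : F.IsHomogeneous δ) (hF0 : F ≠ 0) (z : Fin (n + 2) → KK N)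
    (p : Fin (n + 2)) (hp : z p = 1) (hz : aeval z F = 0) :
    Algebra.trdeg ℂ (Algebra.adjoin ℂ (Set.range z)) ≤ n := by
  classical
  set S := Algebra.adjoin ℂ (Set.range z) with hS
  by_contra hcon
  have hz' : ∀ l, z l ∈ S := fun l => Algebra.subset_adjoin ⟨l, rfl⟩
  let y : {l : Fin (n + 2) // l ≠ p} → S := fun l => ⟨z l, hz' l⟩
  have htop : Algebra.adjoin ℂ (Set.range y) = ⊤ := by
    have h1 : (Algebra.adjoin ℂ (Set.range y)).map S.val = S := by
      rw [AlgHom.map_adjoin]
      refine le_antisymm (Algebra.adjoin_mono ?_) (Algebra.adjoin_le ?_)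
      · rintro _ ⟨_, ⟨l, rfl⟩, rfl⟩
        exact ⟨l, rfl⟩
      · rintro _ ⟨l, rfl⟩
        by_cases hl : l = p
        · rw [hl, hp]
          exact one_mem _
        · exact Algebra.subset_adjoin ⟨y ⟨l, hl⟩, ⟨⟨l, hl⟩, rfl⟩, rfl⟩
    rw [eq_top_iff]
    intro s _
    have h2 : (s : KK N) ∈ (Algebra.adjoin ℂ (Set.range y)).map S.val := by
      rw [h1]
      exact s.2
    obtain ⟨t, ht, hts⟩ := h2
    have : t = s := Subtype.ext hts
    rwa [← this]
  have halg : Algebra.IsAlgebraic (Algebra.adjoin ℂ (Set.range y)) S := by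
    refine ⟨fun s => ?_⟩
    have hs : s ∈ Algebra.adjoin ℂ (Set.range y) := by
      rw [htop]
      trivial
    exact isAlgebraic_algebraMap (⟨s, hs⟩ : Algebra.adjoin ℂ (Set.range y))
  have hcard : Cardinal.mk {l : Fin (n + 2) // l ≠ p} = ((n + 1 : ℕ) : Cardinal) := by
    rw [Cardinal.mk_fintype, Fintype.card_subtype_compl]
    simp
  have hle : Cardinal.mk {l : Fin (n + 2) // l ≠ p} ≤ Algebra.trdeg ℂ S := by
    rw [hcard, Nat.cast_add, Nat.cast_one]
    exact Cardinal.add_one_le_of_lt (not_le.1 hcon)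
  have hfs : FaithfulSMul ℂ S := (faithfulSMul_iff_algebraMap_injective ℂ S).2 (algebraMap ℂ S).injective
  have hb := Algebra.IsAlgebraic.isTranscendenceBasis_of_le_trdeg_of_finite ℂ y hle
  have hind : AlgebraicIndependent ℂ (fun l : {l : Fin (n + 2) // l ≠ p} => z l) := by
    have := hb.1.map' (f := S.val) Subtype.val_injective
    exact this
  -- the dehomogenization
  let D : PX n →ₐ[ℂ] MvPolynomial {l : Fin (n + 2) // l ≠ p} ℂ :=
    aeval fun l => if h : l = p then 1 else X ⟨l, h⟩
  have hD : aeval (fun l : {l : Fin (n + 2) // l ≠ p} => z l) (D F) = 0 := by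
    have h1 : (aeval (fun l : {l : Fin (n + 2) // l ≠ p} => z l)).comp D = aeval z := by
      ext l
      simp only [D, AlgHom.comp_apply, aeval_X]
      by_cases hl : l = p
      · rw [dif_pos hl, map_one, hl, hp]
      · rw [dif_neg hl, aeval_X]
    have h2 := congrArg (fun φ : PX n →ₐ[ℂ] KK N => φ F) h1
    simp only [AlgHom.comp_apply] at h2
    rw [h2, hz]
  have hD0 : D F = 0 := (algebraicIndependent_iff.1 hind) _ hD
  refine hF0 ?_
  -- injectivity on forms
  have hDm : D F = ∑ d ∈ F.support, monomial (d.subtypeDomain fun l => l ≠ p) (coeff d F) := by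
    simp only [D]
    rw [aeval_def, eval₂_eq']
    refine Finset.sum_congr rfl fun d _ => ?_
    rw [monomial_eq, Finsupp.prod_fintype _ _ (fun i => pow_zero _)]
    have h1 : (∏ i, (if h : i = p then (1 : MvPolynomial {l : Fin (n + 2) // l ≠ p} ℂ) else X ⟨i, h⟩) ^ d i) =
        ∏ i : {l : Fin (n + 2) // l ≠ p}, X i ^ (d.subtypeDomain fun l => l ≠ p) i := by
      have h2 : ∏ i ∈ Finset.univ.erase p, (if h : i = p then (1 : MvPolynomial {l : Fin (n + 2) // l ≠ p} ℂ) else X ⟨i, h⟩) ^ d i =
          ∏ i : {l : Fin (n + 2) // l ≠ p}, (if h : (i : Fin (n + 2)) = p then (1 : MvPolynomial {l : Fin (n + 2) // l ≠ p} ℂ) else X ⟨i, h⟩) ^ d i :=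
        Finset.prod_subtype (Finset.univ.erase p) (fun x => by simp) _
      rw [← Finset.mul_prod_erase _ _ (Finset.mem_univ p), dif_pos rfl, one_pow, one_mul, h2]
      refine Finset.prod_congr rfl fun i _ => ?_
      rw [dif_neg i.2]
      rfl
    rw [h1]
    rfl
  ext d
  rw [coeff_zero]
  by_contra hd
  have hds : d ∈ F.support := mem_support_iff.2 hd
  have h1 := congrArg (coeff (d.subtypeDomain fun l => l ≠ p)) hDm
  rw [hD0, coeff_zero, coeff_sum] at h1
  rw [Finset.sum_eq_single_of_mem d hds] at h1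
  · rw [coeff_monomial, if_pos rfl] at h1
    exact hd h1.symm
  · intro e he hne
    rw [coeff_monomial, if_neg]
    intro heq
    apply hne
    have h2 : ∀ l, l ≠ p → e l = d l := fun l hl => by
      have := DFunLike.congr_fun heq ⟨l, hl⟩
      simpa using this
    have hdm : ∀ e : Fin (n + 2) →₀ ℕ, e ∈ F.support → ∑ i, e i = δ := fun e he => by
      have := hF (mem_support_iff.1 he)
      rw [Finsupp.weight_apply, Finsupp.sum_fintype _ _ (fun i => by simp)] at this
      simpa using this
    have h3 := hdm e he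
    have h4 := hdm d hds
    rw [← Finset.add_sum_erase _ _ (Finset.mem_univ p)] at h3 h4
    have h5 : ∑ i ∈ Finset.univ.erase p, e i = ∑ i ∈ Finset.univ.erase p, d i :=
      Finset.sum_congr rfl fun i hi => h2 i (Finset.ne_of_mem_erase hi)
    ext l
    by_cases hl : l = p
    · rw [hl]
      omega
    · exact h2 l hl

theorem trb {n N δ d : ℕ} (hnN : n ≤ N) (F : PX n) (hF : F.IsHomogeneous δ) (hF0 : F ≠ 0)
    (f : Fin (n + 2) → PV N) (hf : ∀ l, (f l).IsHomogeneous d) (hfp : ∃ p, f p ≠ 0) (h0 : aeval f F = 0) :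
    ∃ B : Finset (Fin (N + 1)), B.card + n = N + 1 ∧
      ∀ (m : ℕ) (T : Finset (Fin (N + 1) →₀ ℕ)), (∀ β ∈ T, β.support ⊆ B) →
        ∀ R : (Fin (N + 1) →₀ ℕ) → PX n, (∀ β ∈ T, (R β).IsHomogeneous m) →
          ∑ β ∈ T, monomial β (1 : ℂ) * aeval f (R β) = 0 → ∀ β ∈ T, aeval f (R β) = 0 := by
  classical
  obtain ⟨p, hp⟩ := hfp
  have hc : io N (f p) ≠ 0 := fun h => hp (tr_inj N (h.trans (map_zero _).symm))
  set z : Fin (n + 2) → KK N := fun l => io N (f l) / io N (f p) with hz
  have hzp : z p = 1 := div_self hc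
  have hzF : aeval z F = 0 := by
    rw [hz, tr_scale f _ F hF, h0]
    simp only [io, map_zero, zero_div]
  set S := Algebra.adjoin ℂ (Set.range z) with hS
  have hdeg : Algebra.trdeg ℂ S ≤ n := tr_deg F hF hF0 z p hzp hzF
  let v : Fin (N + 1) → KK N := fun j => io N (X j)
  have hv : IsTranscendenceBasis ℂ v := tr_v N
  have hvinj : Function.Injective v := hv.1.injective
  -- the field is algebraic over `S[v]`
  have halg : Algebra.IsAlgebraic (Algebra.adjoin S (Set.range v)) (KK N) := by
    have hmem : ∀ G : PV N, io N G ∈ Algebra.adjoin S (Set.range v) := by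
      intro G
      induction G using MvPolynomial.induction_on with
      | C a =>
        have h1 : io N (C a) = algebraMap S (KK N) (algebraMap ℂ S a) := rfl
        rw [h1]
        exact Subalgebra.algebraMap_mem _ _
      | add p q hp hq =>
        have h1 : io N (p + q) = io N p + io N q := map_add _ _ _
        rw [h1]
        exact add_mem hp hq
      | mul_X p i hp =>
        have h1 : io N (p * X i) = io N p * io N (X i) := map_mul _ _ _
        rw [h1]
        exact mul_mem hp (Algebra.subset_adjoin ⟨i, rfl⟩)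
    refine ⟨fun a => ?_⟩
    obtain ⟨x, y, hy, hxy⟩ := IsFractionRing.div_surjective (A := PV N) a
    have hy0 : io N y ≠ 0 := fun h => (nonZeroDivisors.ne_zero hy) (tr_inj N (h.trans (map_zero _).symm))
    have h1 : IsAlgebraic (Algebra.adjoin S (Set.range v)) (io N x) :=
      isAlgebraic_algebraMap (⟨io N x, hmem x⟩ : Algebra.adjoin S (Set.range v))
    have h2 : IsAlgebraic (Algebra.adjoin S (Set.range v)) (io N y) :=
      isAlgebraic_algebraMap (⟨io N y, hmem y⟩ : Algebra.adjoin S (Set.range v))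
    rw [← hxy, div_eq_mul_inv]
    exact h1.mul h2.inv
  have hfs : FaithfulSMul S (KK N) := inferInstance
  obtain ⟨t, ht, htb⟩ := exists_isTranscendenceBasis_subset (R := S) (A := KK N) (Set.range v)
  have hfs2 : FaithfulSMul ℂ S := (faithfulSMul_iff_algebraMap_injective ℂ S).2 (algebraMap ℂ S).injective
  have hadd := trdeg_add_eq ℂ S (A := KK N)
  rw [← htb.cardinalMk_eq_trdeg, ← hv.cardinalMk_eq_trdeg] at hadd
  set B0 : Finset (Fin (N + 1)) := Finset.univ.filter fun j => v j ∈ t with hB0
  have htc : Cardinal.mk t ≤ (B0.card : Cardinal) := by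
    have h1 : t ⊆ ((B0.image v : Finset (KK N)) : Set (KK N)) := by
      intro x hx
      obtain ⟨j, hj⟩ := ht hx
      rw [Finset.coe_image]
      refine ⟨j, ?_, hj⟩
      rw [hB0, Finset.coe_filter]
      refine ⟨Finset.mem_univ _, ?_⟩
      rw [hj]
      exact hx
    refine (Cardinal.mk_le_mk_of_subset h1).trans ?_
    have h2 : Cardinal.mk ((B0.image v : Finset (KK N)) : Set (KK N)) = ((B0.image v).card : Cardinal) :=
      Cardinal.mk_coe_finset (s := B0.image v)
    rw [h2]
    exact_mod_cast Finset.card_image_le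
  have hB0c : N + 1 ≤ B0.card + n := by
    have h1 : ((N + 1 : ℕ) : Cardinal) ≤ ((B0.card + n : ℕ) : Cardinal) := by
      have h2 : Cardinal.mk (Fin (N + 1)) = ((N + 1 : ℕ) : Cardinal) := by simp
      rw [← h2, ← hadd, add_comm, Nat.cast_add]
      exact add_le_add htc hdeg
    exact_mod_cast h1
  obtain ⟨B, hBB, hBc⟩ := Finset.exists_subset_card_eq (s := B0) (n := N + 1 - n) (by omega)
  refine ⟨B, by omega, ?_⟩
  intro m T hT R hR hsum β hβ
  have hBt : ∀ b : {b // b ∈ B}, v b ∈ t := fun b => by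
    have := hBB b.2
    rw [hB0, Finset.mem_filter] at this
    exact this.2
  have hind : AlgebraicIndependent S (fun b : {b // b ∈ B} => v b) := by
    have := htb.1.comp (fun b : {b // b ∈ B} => (⟨v b, hBt b⟩ : t)) (fun a b hab => by
      have := congrArg Subtype.val hab
      exact Subtype.ext (hvinj this))
    exact this
  have hmemS : ∀ G : PX n, aeval z G ∈ S := by
    intro G
    rw [hS, Algebra.adjoin_range_eq_range_aeval]
    exact ⟨G, rfl⟩
  let r : (Fin (N + 1) →₀ ℕ) → S := fun β => ⟨aeval z (R β), hmemS _⟩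
  let sd : (Fin (N + 1) →₀ ℕ) → ({b // b ∈ B} →₀ ℕ) := fun β => β.subtypeDomain fun b => b ∈ B
  have hsd : ∀ β ∈ T, ∀ β' ∈ T, sd β = sd β' → β = β' := by
    intro β hβ β' hβ' h
    ext b
    by_cases hb : b ∈ B
    · have := DFunLike.congr_fun h ⟨b, hb⟩
      simpa [sd] using this
    · rw [Finsupp.notMem_support_iff.1 fun h => hb (hT β hβ h), Finsupp.notMem_support_iff.1 fun h => hb (hT β' hβ' h)]
  have hP : aeval (fun b : {b // b ∈ B} => v b) (∑ β ∈ T, monomial (sd β) (r β) : MvPolynomial {b // b ∈ B} S) = 0 := by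
    rw [map_sum]
    have h1 : ∀ β ∈ T, aeval (fun b : {b // b ∈ B} => v b) (monomial (sd β) (r β) : MvPolynomial {b // b ∈ B} S) =
        io N (monomial β (1 : ℂ) * aeval f (R β)) / io N (f p) ^ m := by
      intro β hβ
      rw [aeval_monomial]
      have h2 : (sd β).prod (fun (b : {b // b ∈ B}) e => v b ^ e) = β.prod fun b e => v b ^ e :=
        Finsupp.prod_subtypeDomain_index (h := fun b e => v b ^ e) fun x hx => hT β hβ hx
      have h3 : io N (monomial β (1 : ℂ)) = β.prod fun b e => v b ^ e := by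
        rw [monomial_eq, C_1, one_mul]
        simp only [io, Finsupp.prod, map_prod, map_pow]
        rfl
      have h4 : io N (monomial β (1 : ℂ) * aeval f (R β)) = io N (monomial β (1 : ℂ)) * io N (aeval f (R β)) := map_mul _ _ _
      rw [h2, h4, h3, mul_div_assoc, ← tr_scale f _ (R β) (hR β hβ), mul_comm]
      rfl
    rw [Finset.sum_congr rfl h1, ← Finset.sum_div]
    have h2 : ∑ β ∈ T, io N (monomial β (1 : ℂ) * aeval f (R β)) = io N (∑ β ∈ T, monomial β (1 : ℂ) * aeval f (R β)) :=
      (map_sum (algebraMap (PV N) (KK N)) _ _).symm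
    rw [h2, hsum]
    simp only [io, map_zero, zero_div]
  have hP0 := (algebraicIndependent_iff.1 hind) _ hP
  have hco := congrArg (coeff (sd β)) hP0
  rw [coeff_zero, coeff_sum, Finset.sum_eq_single_of_mem β hβ] at hco
  · rw [coeff_monomial, if_pos rfl] at hco
    have h1 : aeval z (R β) = 0 := congrArg Subtype.val hco
    rw [hz, tr_scale f _ (R β) (hR β hβ), div_eq_zero_iff] at h1
    rcases h1 with h1 | h1
    · exact tr_inj N (h1.trans (map_zero _).symm)
    · exact absurd h1 (pow_ne_zero _ hc)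
  · intro β' hβ' hne
    rw [coeff_monomial, if_neg]
    intro h
    exact hne (hsd β' hβ' β hβ h)

end Pool.Agent.Lib.MP_005409_ag.DG
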