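import Pool.Agent.Lib.MP_005409_ag.DG.Rel
import Pool.Agent.Lib.MP_005409_ag.DG.Ind
import Pool.Agent.Lib.MP_005409_ag.DG.Jac
import Pool.Agent.Lib.MP_005409_ag.DG.JacB
import Pool.Agent.Lib.MP_005409_ag.DG.Chn
import Pool.Agent.Lib.MP_005409_ag.DG.LinW
import Pool.Agent.Lib.MP_005409_ag.DG.Lft
import Pool.Agent.Lib.MP_005409_ag.DG.Hfc
import Pool.Agent.Lib.MP_005409_ag.DG.Trb
import Pool.Agent.Lib.MP_005409_ag.DG.Low
import Pool.Agent.Lib.MP_005409_ag.DG.Cnt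

open MvPolynomial Pool.MPf4a4e4.BT

namespace Pool.Agent.Lib.MP_005409_ag.DG

theorem main {n N δ d : ℕ} (hn : 1 ≤ n) (hδ : 2 ≤ δ) (F : PX n) (hF : F.IsHomogeneous δ)
    (hs : ∀ x : Fin (n + 2) → ℂ, (∀ i, eval x (pderiv i F) = 0) → x = 0)
    (f : Fin (n + 2) → PV N) (hf : ∀ l, (f l).IsHomogeneous d) (h0 : aeval f F = 0)
    (hdom : ∀ G : PX n, aeval f G = 0 → F ∣ G) : δ * (δ - 1) ^ n ≤ d ^ (n + 1) := by
  have hF0 : F ≠ 0 := by
    rintro rfl
    have := hs (fun _ => 1) (fun i => by simp)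
    have h2 := congrFun this 0
    simp at h2
  obtain ⟨i0, hi0⟩ := ind (by omega) F hF hF0 f hdom
  have hg := grad_independent (fun i : {i : Fin (n + 2) // i ≠ i0} => f i) hi0
  obtain ⟨j, hj1, hj2⟩ := columns (K := KK N) (fun l k => io N (pderiv k (f l))) i0 hg
  have hnN : n ≤ N := by
    have := Fintype.card_le_of_injective j hj1
    simp only [Fintype.card_fin] at this
    omega
  have hfp : ∃ p, f p ≠ 0 := by
    obtain ⟨i1, hi1⟩ : ∃ i1 : Fin (n + 2), i1 ≠ i0 := exists_ne i0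
    exact ⟨i1, hi0.ne_zero ⟨i1, hi1⟩⟩
  obtain ⟨c, e, hc, hl⟩ := lift hδ F hF hs f hf
  have hQ := fun a => forms hn hδ F hF hF0 a c hc
  choose Q hQ1 hQ2 using hQ
  have hG := fun a i => hl a (Q a i) (hQ1 a i)
  choose G hG1 hG2 using hG
  obtain ⟨B, hB1, hB2⟩ := trb hnN F hF hF0 f hf hfp h0
  obtain ⟨J, hJ⟩ : ∃ J : Ideal (YV n N), J = JJ (UU (n := n) fun (i : Fin (n + 1)) l => pderiv (j i) (f l)) := ⟨_, rfl⟩
  have hlow := lower F f hdom (fun l => io N (aeval f (pderiv l F))) J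
    (fun G hG c' => by
      rw [hJ] at hG
      exact hG _ (rel F f h0 j c')) B hB2 (fun a => (δ - 1) * (a + c)) Q hQ1 hQ2 G hG1 hG2
  have hup := upper (n := n) (N := N) (d := d) (n + 1) (fun (i : Fin (n + 1)) l => pderiv (j i) (f l))
    (fun i => lin_mem_W f hf (j i)) hj2
  rw [← hJ] at hup
  have h1 : ∀ t, δ * (δ - 1) ^ n * (t + (N + 2)).choose (N + 2) ≤ H one J (t + e) := by
    intro t
    refine le_trans (le_of_eq ?_) (hlow t)
    have h2 := vdm n B.card t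
    have h3 : n + B.card + 1 = N + 2 := by omega
    rw [h3] at h2
    rw [← h2, Finset.mul_sum]
    refine Finset.sum_congr rfl fun a _ => ?_
    ring
  have h4 : ∀ t, δ * (δ - 1) ^ n * (t + (n + N + 3)).choose (n + N + 3) ≤
      d ^ (n + 1) * (t + e + (n + N + 3)).choose (n + N + 3) := by
    intro t
    have h5 := iter_mono h1 (n + 1) t
    rw [iter_mul, iter_choose] at h5
    have h6 : N + 2 + (n + 1) = n + N + 3 := by omega
    rw [h6] at h5
    exact h5.trans ((iter_shift e _ (n + 1) t).trans (hup (t + e)))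
  by_contra hlt
  rw [not_le] at hlt
  obtain ⟨t, _, ht⟩ := choose_lim (d ^ (n + 1)) (δ * (δ - 1) ^ n) e 0 (n + N + 3) hlt
  have h7 := h4 t
  rw [Nat.sub_zero] at ht
  omega

end Pool.Agent.Lib.MP_005409_ag.DG
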