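import Pool.Agent.Lib.MP_005409_ag.DG.Defs

/-! ROW NST. Nullstellensatz: forms of large degree are combinations of the partial derivatives of `F`.
PROOF. `I = Ideal.span (range (pderiv · F))`. By `hs` its zero locus is in `{0}`, so every `X l` vanishes on it and
`X l ∈ I.radical` (`MvPolynomial.vanishingIdeal_zeroLocus_eq_radical` or the form of the Nullstellensatz in Mathlib), so `X l ^ k ∈ I` for one `k ≥ 1`
and all `l`. A monomial of degree `≥ (n+2) k` has an exponent `≥ k`, so it is in `I`; so each form `Q` of degree `m + (δ-1) ≥ (n+2) k` is in `I`: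
`Q = ∑ F_i * A_i` (`Ideal.mem_span_range_iff_exists_fun` or `Submodule.mem_span_range..`). Replace `A_i` by its homogeneous component of degree `m`:
the homogeneous component of degree `m + (δ-1)` of `F_i * A_i` is `F_i * homogeneousComponent m A_i`, as `F_i` is homogeneous of degree `δ - 1`
(`A_i` is the sum of its components, all products are homogeneous). -/

open MvPolynomial

namespace Pool.Agent.Lib.MP_005409_ag.DG

private theorem nst_hc_mul {n : ℕ} (P A : PX n) (a m : ℕ) (hP : P.IsHomogeneous a) :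
    homogeneousComponent (m + a) (P * A) = P * homogeneousComponent m A := by
  have h0 : P * A = ∑ i ∈ Finset.range (A.totalDegree + 1), P * homogeneousComponent i A := by
    rw [← Finset.mul_sum, sum_homogeneousComponent]
  rw [h0, map_sum]
  have h1 : ∀ i ∈ Finset.range (A.totalDegree + 1), homogeneousComponent (m + a) (P * homogeneousComponent i A) =
      if i = m then P * homogeneousComponent m A else 0 := by
    intro i _
    have h := hP.mul (homogeneousComponent_isHomogeneous i A)
    rw [homogeneousComponent_of_mem ((mem_homogeneousSubmodule _ _).2 h)]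
    by_cases him : i = m
    · subst him
      rw [if_pos (by omega), if_pos rfl]
    · rw [if_neg (by omega), if_neg him]
  rw [Finset.sum_congr rfl h1, Finset.sum_ite_eq']
  split_ifs with h
  · rfl
  · rw [homogeneousComponent_eq_zero, mul_zero]
    rw [Finset.mem_range] at h
    omega

private theorem nst_mono {n : ℕ} (I : Ideal (PX n)) (k : ℕ) (hk : ∀ l, (X l : PX n) ^ k ∈ I)
    (d : Fin (n + 2) →₀ ℕ) (c : ℂ) (hd : (n + 2) * k ≤ d.degree) (hk1 : 1 ≤ k) : monomial d c ∈ I := by
  obtain ⟨l, hl⟩ : ∃ l, k ≤ d l := by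
    by_contra h
    push Not at h
    have h1 : ∑ l : Fin (n + 2), d l < ∑ _l : Fin (n + 2), k :=
      Finset.sum_lt_sum_of_nonempty Finset.univ_nonempty fun l _ => h l
    rw [Finset.sum_const, Finset.card_univ, Fintype.card_fin, smul_eq_mul] at h1
    rw [Finsupp.degree_eq_sum] at hd
    omega
  have h2 : (Finsupp.single l k) ≤ d := Finsupp.single_le_iff.2 hl
  have h3 : (monomial d c : PX n) = monomial (d - Finsupp.single l k) c * X l ^ k := by
    rw [X_pow_eq_monomial, monomial_mul, tsub_add_cancel_of_le h2, mul_one]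
  rw [h3]
  exact Ideal.mul_mem_left _ _ (hk l)

theorem nul {n δ : ℕ} (F : PX n) (hF : F.IsHomogeneous δ)
    (hs : ∀ x : Fin (n + 2) → ℂ, (∀ i, eval x (pderiv i F) = 0) → x = 0) :
    ∃ e : ℕ, ∀ m, e ≤ m → ∀ Q : PX n, Q.IsHomogeneous (m + (δ - 1)) →
      ∃ A : Fin (n + 2) → PX n, (∀ i, (A i).IsHomogeneous m) ∧ Q = ∑ i, pderiv i F * A i := by
  obtain ⟨I, hI⟩ : ∃ I : Ideal (PX n), I = Ideal.span (Set.range fun i => pderiv i F) := ⟨_, rfl⟩
  have hrad : ∀ l, (X l : PX n) ∈ I.radical := by
    intro l
    rw [← vanishingIdeal_zeroLocus_eq_radical (k := ℂ) (K := ℂ) I]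
    intro x hx
    have hx0 : x = 0 := by
      refine hs x fun i => ?_
      have h1 : pderiv i F ∈ I := by
        rw [hI]
        exact Ideal.subset_span ⟨i, rfl⟩
      have h2 := hx _ h1
      rwa [aeval_eq_eval] at h2
    rw [hx0, aeval_X]
    rfl
  have hpow : ∀ l, ∃ k : ℕ, (X l : PX n) ^ k ∈ I := fun l => hrad l
  choose kk hkk using hpow
  obtain ⟨k, hk⟩ : ∃ k : ℕ, k = ∑ l, kk l + 1 := ⟨_, rfl⟩
  have hkI : ∀ l, (X l : PX n) ^ k ∈ I := by
    intro l
    have h1 : kk l ≤ k := by
      have := Finset.single_le_sum (f := kk) (fun i _ => Nat.zero_le _) (Finset.mem_univ l)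
      omega
    have h2 : (X l : PX n) ^ k = X l ^ (k - kk l) * X l ^ kk l := by
      rw [← pow_add]
      congr 1
      omega
    rw [h2]
    exact Ideal.mul_mem_left _ _ (hkk l)
  refine ⟨(n + 2) * k, fun m hm Q hQ => ?_⟩
  have hQI : Q ∈ I := by
    rw [← support_sum_monomial_coeff Q]
    refine Ideal.sum_mem _ fun d hd => nst_mono I k hkI d _ ?_ (by omega)
    have h1 : d.degree = m + (δ - 1) := by
      by_contra h
      exact (mem_support_iff.1 hd) (hQ.coeff_eq_zero h)
    omega
  rw [hI, Ideal.mem_span_range_iff_exists_fun] at hQI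
  obtain ⟨c, hc⟩ := hQI
  refine ⟨fun i => homogeneousComponent m (c i), fun i => homogeneousComponent_isHomogeneous _ _, ?_⟩
  have h1 : Q = homogeneousComponent (m + (δ - 1)) Q := (homogeneousComponent_eq_self hQ).symm
  rw [h1, ← hc, map_sum]
  refine Finset.sum_congr rfl fun i _ => ?_
  rw [mul_comm (c i)]
  exact nst_hc_mul _ _ _ _ hF.pderiv

end Pool.Agent.Lib.MP_005409_ag.DG
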