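import Pool.Agent.Lib.MP_005409_ag.DG.Defs

/-! ROW NZD. A linear form which does not vanish on `U` is a non-zero-divisor modulo `JJ U`.
PROOF. Let `lin r * G ∈ JJ U`, `y ∈ U`, and `y1 ∈ U` with `∑ y1_l r_l ≠ 0`. For `c ∈ K` the point `y + c y1` is in `U`, and
`(∑ y_l r_l + c ∑ y1_l r_l) * G(y + c y1, v) = 0` (`evK_lin`). The first factor is not zero for all but one `c`. `c ↦ G(y + c y1, v)` is a
polynomial `g` in `c` over `K` (`aeval (Sum.elim (fun l => C (y l) + X * C (y1 l)) (fun j => C (v_j))) G : Polynomial K`), which has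
infinitely many zeros (`K` infinite), so it is `0` (`Polynomial.eq_zero_of_infinite_isRoot`), and `G(y, v) = g(0) = 0`. -/

open MvPolynomial

namespace Pool.Agent.Lib.MP_005409_ag.DG

theorem nzd {n N : ℕ} (U : Submodule (KK N) (Fin (n + 2) → KK N)) (r : Fin (n + 2) → PV N)
    (h : ∃ y ∈ U, ∑ l, y l * io N (r l) ≠ 0) (G : YV n N) (hG : lin r * G ∈ JJ U) : G ∈ JJ U := by
  obtain ⟨y1, hy1, hb⟩ := h
  intro y hy
  have hinf : Infinite (KK N) := Infinite.of_injective (algebraMap ℂ (KK N)) (algebraMap ℂ (KK N)).injective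
  let P : Polynomial (KK N) := aeval (Sum.elim (fun l => Polynomial.C (y l) + Polynomial.X * Polynomial.C (y1 l))
    (fun j => Polynomial.C (io N (X j)))) G
  have hP : ∀ c : KK N, P.eval c = evK (y + c • y1) G := by
    intro c
    let φ : Polynomial (KK N) →ₐ[ℂ] KK N := (Polynomial.aeval (R := KK N) c).restrictScalars ℂ
    have h1 : P.eval c = φ P := (Polynomial.coe_aeval_eq_eval c ▸ rfl : P.eval c = Polynomial.aeval c P)
    rw [h1]
    show φ (aeval _ G) = aeval _ G
    rw [MvPolynomial.comp_aeval_apply]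
    congr 2
    funext i
    rcases i with l | j
    · show Polynomial.aeval c (Polynomial.C (y l) + Polynomial.X * Polynomial.C (y1 l)) = y l + c * y1 l
      rw [map_add, map_mul, Polynomial.aeval_C, Polynomial.aeval_C, Polynomial.aeval_X]
      rfl
    · show Polynomial.aeval c (Polynomial.C (io N (X j))) = io N (X j)
      simp
  have hz : ∀ c : KK N, c ≠ -(∑ l, y l * io N (r l)) / (∑ l, y1 l * io N (r l)) → P.IsRoot c := by
    intro c hc
    show P.eval c = 0
    rw [hP]
    have h1 := hG (y + c • y1) (U.add_mem hy (U.smul_mem c hy1))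
    rw [map_mul, evK_lin] at h1
    refine (mul_eq_zero.1 h1).resolve_left fun h2 => hc ?_
    rw [eq_div_iff hb]
    have h3 : ∑ l, (y + c • y1) l * io N (r l) = (∑ l, y l * io N (r l)) + c * ∑ l, y1 l * io N (r l) := by
      rw [Finset.mul_sum, ← Finset.sum_add_distrib]
      refine Finset.sum_congr rfl fun l _ => ?_
      simp only [Pi.add_apply, Pi.smul_apply, smul_eq_mul]
      ring
    rw [h3] at h2
    linear_combination h2
  have h0 : P = 0 := Polynomial.eq_zero_of_infinite_isRoot P
    (Set.Infinite.mono (fun c hc => hz c hc) (Set.Finite.infinite_compl (Set.finite_singleton (-(∑ l, y l * io N (r l)) / (∑ l, y1 l * io N (r l))))))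
  have h1 := hP 0
  rw [h0, Polynomial.eval_zero, zero_smul, add_zero] at h1
  exact h1.symm

end Pool.Agent.Lib.MP_005409_ag.DG
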