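import Pool.Agent.Lib.MP_005409_ag.DG.Defs

/-! ROW REL. Chain rule: `0 = ∂_j (F(f)) = ∑_l F_l(f) ∂_j f_l`.
PROOF. `pderiv j` is a derivation; for a derivation `D` and `p` a polynomial `D (aeval f p) = ∑ l, aeval f (pderiv l p) * D (f l)`:
prove this by `MvPolynomial.induction_on p` (constants, sums, multiplication by a variable), apply it to `p = F`, and map to `KK N`.
Also `pderiv_homog`: the degree of a derivative of a form (in Mathlib: `MvPolynomial.IsHomogeneous.pderiv`). -/

open MvPolynomial

namespace Pool.Agent.Lib.MP_005409_ag.DG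

theorem chain_rule {n N : ℕ} (f : Fin (n + 2) → PV N) (p : PX n) (j : Fin (N + 1)) :
    pderiv j (aeval f p) = ∑ l, aeval f (pderiv l p) * pderiv j (f l) := by
  induction p using MvPolynomial.induction_on with
  | C a =>
    rw [show aeval f (C a : PX n) = C a from by rw [← MvPolynomial.algebraMap_eq, AlgHom.commutes]; rfl, pderiv_C]
    symm
    refine Finset.sum_eq_zero fun l _ => ?_
    rw [pderiv_C, map_zero, zero_mul]
  | add p q hp hq =>
    rw [map_add, map_add, hp, hq, ← Finset.sum_add_distrib]
    refine Finset.sum_congr rfl fun l _ => ?_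
    rw [map_add, map_add, add_mul]
  | mul_X p i hp =>
    rw [map_mul, aeval_X, Derivation.leibniz, hp, smul_eq_mul, smul_eq_mul, Finset.mul_sum]
    have h : ∀ l, aeval f (pderiv l (p * X i : PX n)) * pderiv j (f l) =
        aeval f p * (aeval f (pderiv l (X i : PX n)) * pderiv j (f l)) + f i * (aeval f (pderiv l p) * pderiv j (f l)) := by
      intro l
      rw [Derivation.leibniz, smul_eq_mul, smul_eq_mul, map_add, map_mul, map_mul, aeval_X]
      ring
    have h2 : ∑ l, aeval f p * (aeval f (pderiv l (X i : PX n)) * pderiv j (f l)) = aeval f p * pderiv j (f i) := by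
      rw [Finset.sum_eq_single i]
      · rw [pderiv_X_self, map_one, one_mul]
      · intro l _ hl
        rw [pderiv_X_of_ne (Ne.symm hl), map_zero, zero_mul, mul_zero]
      · intro h
        exact absurd (Finset.mem_univ i) h
    rw [Finset.sum_congr rfl fun l _ => h l, Finset.sum_add_distrib, h2]

/-- the gradient of `F` at `f(v)` lies in the space killed by the derivatives of `f` -/
theorem rel {n N : ℕ} {ι : Type} (F : PX n) (f : Fin (n + 2) → PV N) (h0 : aeval f F = 0) (j : ι → Fin (N + 1)) (c : KK N) :
    (fun l => c * io N (aeval f (pderiv l F))) ∈ UU (n := n) (fun (i : ι) l => pderiv (j i) (f l)) := by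
  rw [mem_UU]
  intro i
  have h1 := chain_rule f F (j i)
  rw [h0, map_zero] at h1
  have h2 : ∑ l, c * io N (aeval f (pderiv l F)) * io N (pderiv (j i) (f l)) =
      c * io N (∑ l, aeval f (pderiv l F) * pderiv (j i) (f l)) := by
    unfold io
    rw [map_sum, Finset.mul_sum]
    refine Finset.sum_congr rfl fun l _ => ?_
    rw [map_mul, mul_assoc]
  rw [h2, ← h1]
  unfold io
  rw [map_zero, mul_zero]

end Pool.Agent.Lib.MP_005409_ag.DG
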